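import Pool.Agent.Work.MP_b0f829_al.H86.Layers

set_option autoImplicit false

namespace Pool.Agent.B0f829

open Subgroup
open scoped commutatorElement

variable {G : Type*} [Group G]

/-- An element of `[R, R]` involves only finitely many first entries. -/
theorem finite_support (R : Subgroup G) {a : G} (ha : a ∈ ⁅R, R⁆) :
    ∃ F : Finset G, (∀ r ∈ F, r ∈ R) ∧
      ∀ P : Subgroup G, (∀ r ∈ F, ∀ c ∈ R, ⁅r, c⁆ ∈ P) → a ∈ P := by
  classical
  rw [Subgroup.commutator_def] at ha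
  induction ha using closure_induction with
  | mem x hx =>
    obtain ⟨r, hr, c, hc, rfl⟩ := hx
    exact ⟨{r}, by simpa using hr, fun P hP => hP r (by simp) c hc⟩
  | one => exact ⟨∅, by simp, fun P _ => one_mem _⟩
  | mul x y _ _ hx hy =>
    obtain ⟨F, hF, h⟩ := hx
    obtain ⟨F', hF', h'⟩ := hy
    refine ⟨F ∪ F', ?_, fun P hP => mul_mem (h P fun r hr => hP r (by simp [hr]))
      (h' P fun r hr => hP r (by simp [hr]))⟩
    intro r hr
    rcases Finset.mem_union.1 hr with k | k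
    · exact hF r k
    · exact hF' r k
  | inv x _ hx =>
    obtain ⟨F, hF, h⟩ := hx
    exact ⟨F, hF, fun P hP => inv_mem (h P hP)⟩

/-- The local generation criterion, for a normal subgroup `R`. -/
theorem comm_list_of_local (R : Subgroup G) [R.Normal] (k : ℕ)
    (h : ∀ F : Finset G, (∀ x ∈ F, x ∈ R) → ∃ T : Finset G, T.card ≤ k ∧ (∀ t ∈ T, t ∈ R) ∧
      ∀ x ∈ F, x ∈ normalClosure (T : Set G) ⊔ closure {y | ∃ a ∈ R, y = a ^ 2} ⊔ ⁅R, R⁆) :
    ∀ a ∈ ⁅R, R⁆, ∃ l : List (G × G), l.length ≤ k ∧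
      ((l.map (fun q => ⁅q.1, q.2⁆)).prod)⁻¹ * a ∈ Nsq ⁅R, R⁆ := by
  intro a ha
  obtain ⟨F, hF, hFa⟩ := finite_support R ha
  obtain ⟨T, hTk, hTR, hTF⟩ := h F hF
  obtain ⟨P, h1, _, h3⟩ := comm_gen R T hTR
  have haP : a ∈ P := hFa P (fun r hr c hc => h1 r (hTF r hr) c hc)
  obtain ⟨d, hd⟩ := h3 a haP
  refine ⟨T.toList.map (fun t => (t, d t)), by simpa using hTk, ?_⟩
  rw [List.map_map]
  exact hd

theorem layerCond_of_local (i k : ℕ)
    (h : ∀ F : Finset G, (∀ x ∈ F, x ∈ derivedSeries G i) →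
      ∃ T : Finset G, T.card ≤ k ∧ (∀ t ∈ T, t ∈ derivedSeries G i) ∧
      ∀ x ∈ F, x ∈ normalClosure (T : Set G) ⊔ closure {y | ∃ a ∈ derivedSeries G i, y = a ^ 2} ⊔
        derivedSeries G (i + 1)) : LayerCond G (i + 1) k := by
  intro a ha
  rw [derivedSeries_succ] at ha ⊢
  exact comm_list_of_local (derivedSeries G i) k h a ha

theorem layerCond_one (S : Finset G) (hS : closure (S : Set G) = ⊤) : LayerCond G 1 S.card := by
  apply layerCond_of_local 0
  intro F _
  refine ⟨S, le_rfl, fun t _ => by rw [derivedSeries_zero]; trivial, fun x _ => ?_⟩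
  have : normalClosure (S : Set G) = ⊤ := top_le_iff.1 (hS ▸ closure_le_normalClosure)
  rw [this]
  exact mem_sup_left (mem_sup_left (mem_top x))

theorem comm_le_of_gen (S : Set G) (hS : closure S = ⊤) (K : Subgroup G) [K.Normal]
    (hK : ∀ s ∈ S, ∀ t ∈ S, ⁅s, t⁆ ∈ K) : ⁅(⊤ : Subgroup G), (⊤ : Subgroup G)⁆ ≤ K := by
  have hKn : K.Normal := inferInstance
  have h1 : ∀ g : G, ∀ t ∈ S, ⁅g, t⁆ ∈ K := by
    intro g
    have hg : g ∈ closure S := by rw [hS]; trivial
    induction hg using closure_induction with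
    | mem s hs => exact fun t ht => hK s hs t ht
    | one => intro t _; simp
    | mul x y _ _ hx hy =>
      intro t ht
      have e : ⁅x * y, t⁆ = x * ⁅y, t⁆ * x⁻¹ * ⁅x, t⁆ := by
        simp only [commutatorElement_def]; group
      rw [e]
      exact mul_mem (hKn.conj_mem _ (hy t ht) x) (hx t ht)
    | inv x _ hx =>
      intro t ht
      have e : ⁅x⁻¹, t⁆ = x⁻¹ * ⁅x, t⁆⁻¹ * x⁻¹⁻¹ := by
        simp only [commutatorElement_def]; group
      rw [e]
      exact hKn.conj_mem _ (inv_mem (hx t ht)) _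
  rw [commutator_le]
  intro g _ h hh0
  clear hh0
  have hh : h ∈ closure S := by rw [hS]; trivial
  induction hh using closure_induction with
  | mem s hs => exact h1 g s hs
  | one => simp
  | mul x y _ _ hx hy =>
    have e : ⁅g, x * y⁆ = ⁅g, x⁆ * (x * ⁅g, y⁆ * x⁻¹) := by
      simp only [commutatorElement_def]; group
    rw [e]
    exact mul_mem hx (hKn.conj_mem _ hy x)
  | inv x _ hx =>
    have e : ⁅g, x⁻¹⁆ = x⁻¹ * ⁅g, x⁆⁻¹ * x⁻¹⁻¹ := by
      simp only [commutatorElement_def]; group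
    rw [e]
    exact hKn.conj_mem _ (inv_mem hx) _

theorem layerCond_two (S : Finset G) (hS : closure (S : Set G) = ⊤) :
    LayerCond G 2 (S.card * S.card) := by
  classical
  apply layerCond_of_local 1
  intro F hF
  refine ⟨(S ×ˢ S).image (fun q => ⁅q.1, q.2⁆), ?_, ?_, ?_⟩
  · exact Finset.card_image_le.trans (by rw [Finset.card_product])
  · intro t ht
    obtain ⟨q, _, rfl⟩ := Finset.mem_image.1 ht
    rw [derivedSeries_one]
    exact commutator_mem_commutator (mem_top _) (mem_top _)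
  · intro x hx
    have h1 := hF x hx
    rw [derivedSeries_one, commutator_def] at h1
    refine mem_sup_left (mem_sup_left ?_)
    refine comm_le_of_gen (S : Set G) hS _ ?_ h1
    intro s hs t ht
    apply subset_normalClosure
    rw [Finset.coe_image]
    exact ⟨(s, t), by simpa using ⟨hs, ht⟩, rfl⟩

/-- Finite palindromic width of all quotients of derived length at most three. -/
theorem base (S : Finset G) (hS : closure (S : Set G) = ⊤) :
    ∃ M : ℕ, ∀ g : G, ∃ p, PL (S : Set G) M p ∧ p⁻¹ * g ∈ derivedSeries G 3 := by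
  have h1 := step S hS (i := 0) (layer_zero S hS)
    (PLayer.of_layerCond S hS (layer_zero S hS) (layerCond_one S hS))
  have h2 := step S hS (i := 1) h1 (PLayer.of_layerCond S hS h1 (layerCond_two S hS))
  exact ⟨_, h2⟩

theorem bounded_of_PLayer (S : Finset G) (hS : closure (S : Set G) = ⊤)
    (h : ∀ i, 3 ≤ i → ∃ k, PLayer (S : Set G) i k) (n : ℕ) :
    ∃ M : ℕ, ∀ g : G, ∃ p, PL (S : Set G) M p ∧ p⁻¹ * g ∈ derivedSeries G (n + 3) := by
  induction n with
  | zero => exact base S hS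
  | succ n ih =>
    obtain ⟨M, hM⟩ := ih
    obtain ⟨k, hk⟩ := h (n + 3) (by omega)
    exact ⟨_, step S hS (i := n + 2) hM hk⟩

/-- Finite palindromic width from bounded palindromic length of the layers from the third on. -/
theorem finite_of_PLayer (hsol : Group.IsSolvable G) (S : Finset G) (hS : closure (S : Set G) = ⊤)
    (h : ∀ i, 3 ≤ i → ∃ k, PLayer (S : Set G) i k) : ∃ N : ℕ, ∀ g : G, PL (S : Set G) N g := by
  obtain ⟨n, hn⟩ := hsol.solvable
  obtain ⟨M, hM⟩ := bounded_of_PLayer S hS h n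
  refine ⟨M, fun g => ?_⟩
  obtain ⟨p, hp, hpg⟩ := hM g
  have h0 : derivedSeries G (n + 3) ≤ ⊥ := by
    rw [← hn]; exact derivedSeries_antitone G (by omega)
  have h1 := h0 hpg
  rw [mem_bot, inv_mul_eq_one] at h1
  rwa [← h1]

/-- The general layer criterion. -/
theorem finite_of_layerCond (hsol : Group.IsSolvable G) (S : Finset G) (hS : closure (S : Set G) = ⊤)
    (h : ∀ i, 3 ≤ i → ∃ k, LayerCond G i k) : ∃ N : ℕ, ∀ g : G, PL (S : Set G) N g := by
  obtain ⟨n, hn⟩ := hsol.solvable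
  have key : ∀ n : ℕ, ∃ M : ℕ, ∀ g : G, ∃ p, PL (S : Set G) M p ∧
      p⁻¹ * g ∈ derivedSeries G (n + 3) := by
    intro n
    induction n with
    | zero => exact base S hS
    | succ n ih =>
      obtain ⟨M, hM⟩ := ih
      obtain ⟨k, hk⟩ := h (n + 3) (by omega)
      exact ⟨_, step S hS (i := n + 2) hM (PLayer.of_layerCond S hS hM hk)⟩
  obtain ⟨M, hM⟩ := key n
  refine ⟨M, fun g => ?_⟩
  obtain ⟨p, hp, hpg⟩ := hM g
  have h0 : derivedSeries G (n + 3) ≤ ⊥ := by
    rw [← hn]; exact derivedSeries_antitone G (by omega)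
  have h1 := h0 hpg
  rw [mem_bot, inv_mul_eq_one] at h1
  rwa [← h1]

/-- Finite commutator width implies all layer conditions. -/
theorem layerCond_of_commWidth {k : ℕ}
    (h : ∀ g ∈ commutator G, ∃ l : List (G × G), l.length ≤ k ∧
      (l.map (fun q => ⁅q.1, q.2⁆)).prod = g) (i : ℕ) (hi : 1 ≤ i) : LayerCond G i k := by
  intro a ha
  have h1 : a ∈ commutator G := by
    rw [← derivedSeries_one]
    exact derivedSeries_antitone G hi ha
  obtain ⟨l, hl, hla⟩ := h a h1
  exact ⟨l, hl, by rw [hla, inv_mul_cancel]; exact one_mem _⟩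

/-- Powers of exponent `2 ^ (r - 3)`. -/
theorem powers (S : Finset G) (hS : closure (S : Set G) = ⊤) (n : ℕ) :
    ∃ M : ℕ, ∀ g : G, ∃ p, PL (S : Set G) M p ∧ p⁻¹ * g ^ (2 ^ n) ∈ derivedSeries G (n + 3) := by
  induction n with
  | zero =>
    obtain ⟨M, hM⟩ := base S hS
    exact ⟨M, fun g => by simpa using hM g⟩
  | succ n ih =>
    obtain ⟨M, hM⟩ := ih
    refine ⟨M + M + 9 * S.card, fun g => ?_⟩
    obtain ⟨p, hp, hpg⟩ := hM g
    set a := p⁻¹ * g ^ (2 ^ n) with ha
    have hg : g ^ (2 ^ n) = p * a := by rw [ha]; group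
    have hA : derivedSeries G (n + 3) = ⁅derivedSeries G (n + 2), derivedSeries G (n + 2)⁆ := by
      rw [← derivedSeries_succ]
    have hmem : (p * p)⁻¹ * g ^ (2 ^ (n + 1)) ∈ Nsq (derivedSeries G (n + 3)) := by
      have e : (p * p)⁻¹ * g ^ (2 ^ (n + 1)) = ⁅a, p⁻¹⁆⁻¹ * a ^ 2 := by
        rw [pow_succ 2 n, pow_mul, hg, commutatorElement_def, pow_two, pow_two]; group
      rw [e]
      exact mul_mem (inv_mem (comm_mem_Nsq hpg _)) (sq_mem_Nsq hpg)
    rw [hA] at hmem
    obtain ⟨r, hr, hra⟩ := PL.of_Nsq_rel S hS (derivedSeries G (n + 2)) hmem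
    refine ⟨p * p * r, (hp.mul hp).mul hr, ?_⟩
    have e : n + 1 + 3 = (n + 2) + 1 + 1 := by ring
    rw [e, derivedSeries_succ, derivedSeries_succ]
    have e2 : (p * p * r)⁻¹ * g ^ 2 ^ (n + 1) = r⁻¹ * ((p * p)⁻¹ * g ^ 2 ^ (n + 1)) := by group
    rw [e2]
    exact hra

end Pool.Agent.B0f829
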