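import Pool.Agent.Work.MP_b0f829_al.H86.Trick

set_option autoImplicit false

namespace Pool.Agent.B0f829

open Subgroup
open scoped commutatorElement

variable {G : Type*} [Group G]

/-- The subgroup generated by the squares of the elements of `A` and by `[A, G]`. -/
def Nsq (A : Subgroup G) : Subgroup G :=
  closure {y | ∃ a ∈ A, y = a ^ 2} ⊔ ⁅A, (⊤ : Subgroup G)⁆

theorem sq_mem_Nsq {A : Subgroup G} {a : G} (ha : a ∈ A) : a ^ 2 ∈ Nsq A :=
  mem_sup_left (subset_closure ⟨a, ha, rfl⟩)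

theorem comm_mem_Nsq {A : Subgroup G} {a : G} (ha : a ∈ A) (g : G) : ⁅a, g⁆ ∈ Nsq A :=
  mem_sup_right (commutator_mem_commutator ha (mem_top g))

theorem closure_sq_normal (A : Subgroup G) [A.Normal] :
    (closure {y : G | ∃ a ∈ A, y = a ^ 2}).Normal := by
  refine ⟨fun x hx g => ?_⟩
  induction hx using closure_induction with
  | mem y hy =>
    obtain ⟨a, ha, rfl⟩ := hy
    exact subset_closure ⟨g * a * g⁻¹, (inferInstance : A.Normal).conj_mem a ha g, by
      rw [pow_two, pow_two]; group⟩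
  | one => simp
  | mul x y _ _ hx hy =>
    have := mul_mem hx hy
    have e : g * x * g⁻¹ * (g * y * g⁻¹) = g * (x * y) * g⁻¹ := by group
    rwa [e] at this
  | inv x _ hx =>
    have := inv_mem hx
    have e : (g * x * g⁻¹)⁻¹ = g * x⁻¹ * g⁻¹ := by group
    rwa [e] at this

instance Nsq_normal (A : Subgroup G) [A.Normal] : (Nsq A).Normal := by
  have := closure_sq_normal A
  unfold Nsq
  infer_instance

theorem Nsq_mem_of_comm {A : Subgroup G} [A.Normal] (hA : ∀ a ∈ A, ∀ b ∈ A, a * b = b * a)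
    {x : G} (hx : x ∈ Nsq A) :
    ∃ a ∈ A, ∃ k ∈ ⁅A, (⊤ : Subgroup G)⁆, x = a ^ 2 * k := by
  unfold Nsq at hx
  rw [mem_sup_of_normal_right] at hx
  obtain ⟨y, hy, k, hk, rfl⟩ := hx
  have : ∃ a ∈ A, y = a ^ 2 := by
    induction hy using closure_induction with
    | mem y hy => exact hy
    | one => exact ⟨1, one_mem _, by simp⟩
    | mul x y _ _ hx hy =>
      obtain ⟨a, ha, rfl⟩ := hx
      obtain ⟨b, hb, rfl⟩ := hy
      refine ⟨a * b, mul_mem ha hb, ?_⟩
      have h := hA a ha b hb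
      calc a ^ 2 * b ^ 2 = a * (a * b) * b := by rw [pow_two, pow_two]; group
        _ = a * (b * a) * b := by rw [h]
        _ = (a * b) ^ 2 := by rw [pow_two]; group
    | inv x _ hx =>
      obtain ⟨a, ha, rfl⟩ := hx
      exact ⟨a⁻¹, inv_mem ha, by rw [inv_pow]⟩
  obtain ⟨a, ha, rfl⟩ := this
  exact ⟨a, ha, k, hk, rfl⟩

/-- Main lemma, absolute version. -/
theorem PL.of_Nsq (S : Finset G) (hS : closure (S : Set G) = ⊤) (R : Subgroup G) [R.Normal]
    (hA : ∀ a ∈ ⁅R, R⁆, ∀ b ∈ ⁅R, R⁆, a * b = b * a) {x : G} (hx : x ∈ Nsq ⁅R, R⁆) :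
    PL (S : Set G) (9 * S.card) x := by
  classical
  obtain ⟨a, ha, k, hk, rfl⟩ := Nsq_mem_of_comm hA hx
  set K : Subgroup G := ⁅⁅R, R⁆, (⊤ : Subgroup G)⁆ with hK
  let π := QuotientGroup.mk' K
  have hsurj : Function.Surjective π := QuotientGroup.mk'_surjective K
  have hS' : closure ((S.image π : Finset (G ⧸ K)) : Set (G ⧸ K)) = ⊤ := by
    rw [Finset.coe_image, ← MonoidHom.map_closure, hS, ← MonoidHom.range_eq_map,
      MonoidHom.range_eq_top.2 hsurj]
  have hRn : (R.map π).Normal := Subgroup.Normal.map inferInstance π hsurj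
  have hmap : ⁅R.map π, R.map π⁆ = ⁅R, R⁆.map π := (map_commutator R R π).symm
  have hcen : ∀ b ∈ ⁅R.map π, R.map π⁆, ∀ g : G ⧸ K, b * g = g * b := by
    intro b hb g
    rw [hmap] at hb
    obtain ⟨b, hb, rfl⟩ := hb
    obtain ⟨g, rfl⟩ := hsurj g
    rw [← map_mul, ← map_mul]
    have : ⁅b, g⁆ ∈ K := commutator_mem_commutator hb (mem_top g)
    have h1 : π ⁅b, g⁆ = 1 := (QuotientGroup.eq_one_iff _).2 this
    rw [commutatorElement_def] at h1
    have e : b * g = b * g * b⁻¹ * g⁻¹ * (g * b) := by group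
    rw [e, map_mul, h1, one_mul]
  have h1 := PL.sq_central (S.image π) hS' (R.map π) hcen (a := π a)
    (by rw [hmap]; exact ⟨a, ha, rfl⟩)
  rw [Finset.coe_image] at h1
  obtain ⟨p, hp, hpa⟩ := PL.lift π h1
  have hp' : PL (S : Set G) (6 * S.card) p :=
    hp.mono (Nat.mul_le_mul_left 6 Finset.card_image_le)
  have hmem : p⁻¹ * a ^ 2 ∈ K := by
    rw [← map_pow] at hpa
    exact QuotientGroup.eq.1 hpa
  have h2 := PL.comm_top S hS ⁅R, R⁆ hA (mul_mem hmem hk)
  have h3 := hp'.mul h2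
  have e : p * (p⁻¹ * a ^ 2 * k) = a ^ 2 * k := by group
  rw [e] at h3
  exact h3.mono (by omega)

/-- Main lemma, relative version. -/
theorem PL.of_Nsq_rel (S : Finset G) (hS : closure (S : Set G) = ⊤) (R : Subgroup G) [R.Normal]
    {x : G} (hx : x ∈ Nsq ⁅R, R⁆) :
    ∃ p, PL (S : Set G) (9 * S.card) p ∧ p⁻¹ * x ∈ ⁅⁅R, R⁆, ⁅R, R⁆⁆ := by
  classical
  set D : Subgroup G := ⁅⁅R, R⁆, ⁅R, R⁆⁆ with hD
  let π := QuotientGroup.mk' D
  have hsurj : Function.Surjective π := QuotientGroup.mk'_surjective D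
  have hS' : closure ((S.image π : Finset (G ⧸ D)) : Set (G ⧸ D)) = ⊤ := by
    rw [Finset.coe_image, ← MonoidHom.map_closure, hS, ← MonoidHom.range_eq_map,
      MonoidHom.range_eq_top.2 hsurj]
  have hRn : (R.map π).Normal := Subgroup.Normal.map inferInstance π hsurj
  have hmap : ⁅R.map π, R.map π⁆ = ⁅R, R⁆.map π := (map_commutator R R π).symm
  have hab : ∀ a ∈ ⁅R.map π, R.map π⁆, ∀ b ∈ ⁅R.map π, R.map π⁆, a * b = b * a := by
    intro a ha b hb
    rw [hmap] at ha hb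
    obtain ⟨a, ha, rfl⟩ := ha
    obtain ⟨b, hb, rfl⟩ := hb
    rw [← map_mul, ← map_mul]
    have : ⁅a, b⁆ ∈ D := commutator_mem_commutator ha hb
    have h1 : π ⁅a, b⁆ = 1 := (QuotientGroup.eq_one_iff _).2 this
    rw [commutatorElement_def] at h1
    have e : a * b = a * b * a⁻¹ * b⁻¹ * (b * a) := by group
    rw [e, map_mul, h1, one_mul]
  have hx' : π x ∈ Nsq ⁅R.map π, R.map π⁆ := by
    have h0 : (Nsq ⁅R, R⁆).map π ≤ Nsq ⁅R.map π, R.map π⁆ := by
      rw [map_le_iff_le_comap]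
      refine sup_le ?_ ?_
      · rw [closure_le]
        rintro y ⟨a, ha, rfl⟩
        change π (a ^ 2) ∈ Nsq ⁅R.map π, R.map π⁆
        rw [map_pow]
        exact sq_mem_Nsq (by rw [hmap]; exact ⟨a, ha, rfl⟩)
      · rw [commutator_le]
        intro a ha g _
        change π ⁅a, g⁆ ∈ Nsq ⁅R.map π, R.map π⁆
        rw [map_commutatorElement]
        exact comm_mem_Nsq (by rw [hmap]; exact ⟨a, ha, rfl⟩) _
    exact h0 ⟨x, hx, rfl⟩
  have h1 := PL.of_Nsq (S.image π) hS' (R.map π) hab hx'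
  rw [Finset.coe_image] at h1
  obtain ⟨p, hp, hpa⟩ := PL.lift π h1
  exact ⟨p, hp.mono (Nat.mul_le_mul_left 9 Finset.card_image_le), QuotientGroup.eq.1 hpa⟩

/-- Every element is a product of `|S|` palindromes modulo the derived subgroup. -/
theorem layer_zero (S : Finset G) (hS : closure (S : Set G) = ⊤) (g : G) :
    ∃ p, PL (S : Set G) S.card p ∧ p⁻¹ * g ∈ derivedSeries G 1 := by
  classical
  obtain ⟨P, h1, h2⟩ := sup_range S
    (fun s => (zpowersHom (Abelianization G) (Abelianization.of s)))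
  have hP : ∀ g : G, Abelianization.of g ∈ P := by
    intro g
    have hg : g ∈ closure (S : Set G) := by rw [hS]; trivial
    induction hg using closure_induction with
    | mem s hs =>
      simpa using h1 s hs (Multiplicative.ofAdd 1)
    | one => rw [map_one]; exact one_mem _
    | mul x y _ _ hx hy => rw [map_mul]; exact mul_mem hx hy
    | inv x _ hx => rw [map_inv]; exact inv_mem hx
  obtain ⟨c, hc⟩ := h2 _ (hP g)
  refine ⟨(S.toList.map (fun s => s ^ (Multiplicative.toAdd (c s)))).prod, ?_, ?_⟩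
  · have := PL.list_prod (S := (S : Set G)) S.toList
      (fun s => s ^ (Multiplicative.toAdd (c s))) (n := 1)
      (fun s hs => PL.zpow_letter (by simpa using hs) _)
    rw [Finset.length_toList, mul_one] at this
    exact this
  · rw [derivedSeries_one]
    have : (Abelianization.of ((S.toList.map (fun s => s ^ (Multiplicative.toAdd (c s)))).prod)
        : Abelianization G) = Abelianization.of g := by
      rw [hc, ← Finset.prod_map_toList, map_list_prod, List.map_map]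
      congr 1
    exact QuotientGroup.eq.1 this

/-- The palindromic condition on the `i`-th layer. -/
def PLayer (S : Set G) (i k : ℕ) : Prop :=
  ∀ a ∈ derivedSeries G i, ∃ p, PL S k p ∧ p⁻¹ * a ∈ Nsq (derivedSeries G i)

theorem step (S : Finset G) (hS : closure (S : Set G) = ⊤) {i M k : ℕ}
    (hM : ∀ g : G, ∃ p, PL (S : Set G) M p ∧ p⁻¹ * g ∈ derivedSeries G (i + 1))
    (hk : PLayer (S : Set G) (i + 1) k) :
    ∀ g : G, ∃ p, PL (S : Set G) (M + k + 9 * S.card) p ∧ p⁻¹ * g ∈ derivedSeries G (i + 2) := by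
  intro g
  obtain ⟨p, hp, hpg⟩ := hM g
  obtain ⟨q, hq, hqa⟩ := hk _ hpg
  rw [derivedSeries_succ] at hqa
  obtain ⟨r, hr, hra⟩ := PL.of_Nsq_rel S hS (derivedSeries G i) hqa
  refine ⟨p * q * r, (hp.mul hq).mul hr, ?_⟩
  rw [derivedSeries_succ, derivedSeries_succ]
  have e : (p * q * r)⁻¹ * g = r⁻¹ * (q⁻¹ * (p⁻¹ * g)) := by group
  rw [e]
  exact hra

/-- The commutator condition on the `i`-th layer. -/
def LayerCond (G : Type*) [Group G] (i k : ℕ) : Prop :=
  ∀ a ∈ derivedSeries G i, ∃ l : List (G × G), l.length ≤ k ∧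
    ((l.map (fun q => ⁅q.1, q.2⁆)).prod)⁻¹ * a ∈ Nsq (derivedSeries G i)

theorem PLayer.of_layerCond (S : Finset G) (hS : closure (S : Set G) = ⊤) {i M k : ℕ}
    (hM : ∀ g : G, ∃ p, PL (S : Set G) M p ∧ p⁻¹ * g ∈ derivedSeries G i)
    (hk : LayerCond G i k) : PLayer (S : Set G) i (k * (3 * M)) := by
  intro a ha
  obtain ⟨l, hl, hla⟩ := hk a ha
  choose π hπ1 hπ2 using hM
  refine ⟨(l.map (fun q => ⁅π q.1, q.2⁆)).prod, ?_, ?_⟩
  · exact (PL.list_prod l (fun q => ⁅π q.1, q.2⁆)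
      (fun q _ => PL.comm_left hS (hπ1 q.1) q.2)).mono (Nat.mul_le_mul_right _ hl)
  · set K := ⁅derivedSeries G i, (⊤ : Subgroup G)⁆ with hK
    have h1 : ((l.map (fun q => ⁅π q.1, q.2⁆)).prod)⁻¹ * (l.map (fun q => ⁅q.1, q.2⁆)).prod ∈ K := by
      apply QuotientGroup.eq.1
      change QuotientGroup.mk' K _ = QuotientGroup.mk' K _
      rw [map_list_prod, map_list_prod, List.map_map, List.map_map]
      congr 1
      apply List.map_congr_left
      intro q _
      simp only [Function.comp]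
      have e : ⁅q.1, q.2⁆ = π q.1 * ⁅(π q.1)⁻¹ * q.1, q.2⁆ * (π q.1)⁻¹ * ⁅π q.1, q.2⁆ := by
        simp only [commutatorElement_def]; group
      rw [e, map_mul]
      have hk : π q.1 * ⁅(π q.1)⁻¹ * q.1, q.2⁆ * (π q.1)⁻¹ ∈ K :=
        (inferInstance : K.Normal).conj_mem _
          (commutator_mem_commutator (hπ2 q.1) (mem_top q.2)) _
      have : QuotientGroup.mk' K (π q.1 * ⁅(π q.1)⁻¹ * q.1, q.2⁆ * (π q.1)⁻¹) = 1 :=
        (QuotientGroup.eq_one_iff _).2 hk
      rw [this, one_mul]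
    have h2 : K ≤ Nsq (derivedSeries G i) := le_sup_right
    have := mul_mem (h2 h1) hla
    have e : ((l.map (fun q => ⁅π q.1, q.2⁆)).prod)⁻¹ * (l.map (fun q => ⁅q.1, q.2⁆)).prod *
        (((l.map (fun q => ⁅q.1, q.2⁆)).prod)⁻¹ * a)
        = ((l.map (fun q => ⁅π q.1, q.2⁆)).prod)⁻¹ * a := by group
    rwa [e] at this

/-- Commutators with elements of the normal closure of a finite set `T`, modulo
`Nsq [R, R]`. -/
theorem comm_gen (R : Subgroup G) [R.Normal] (T : Finset G) (hT : ∀ t ∈ T, t ∈ R) :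
    ∃ P : Subgroup G,
      (∀ r ∈ normalClosure (T : Set G) ⊔ closure {y | ∃ a ∈ R, y = a ^ 2} ⊔ ⁅R, R⁆,
        ∀ c ∈ R, ⁅r, c⁆ ∈ P) ∧
      Nsq ⁅R, R⁆ ≤ P ∧
      ∀ x ∈ P, ∃ d : G → G,
        ((T.toList.map (fun t => ⁅t, d t⁆)).prod)⁻¹ * x ∈ Nsq ⁅R, R⁆ := by
  classical
  set N := Nsq ⁅R, R⁆ with hN
  let π := QuotientGroup.mk' N
  have hcen : ∀ a ∈ ⁅R, R⁆, π a ∈ center (G ⧸ N) := by
    intro a ha
    rw [mem_center_iff]
    intro g
    obtain ⟨g, rfl⟩ := QuotientGroup.mk'_surjective N g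
    have : ⁅a, g⁆ ∈ N := comm_mem_Nsq ha g
    have h1 : π ⁅a, g⁆ = 1 := (QuotientGroup.eq_one_iff _).2 this
    rw [commutatorElement_def] at h1
    have e : a * g = a * g * a⁻¹ * g⁻¹ * (g * a) := by group
    have h2 : π (a * g) = π (g * a) := by rw [e, map_mul, h1, one_mul]
    change π g * π a = π a * π g
    rw [← map_mul, ← map_mul, h2]
  have hc' : ∀ a ∈ ⁅R, R⁆, ∀ g : G, π (g * a * g⁻¹) = π a := by
    intro a ha g
    have := mem_center_iff.1 (hcen a ha) (π g)
    rw [map_mul, map_mul, this, mul_assoc, ← map_mul, mul_inv_cancel, map_one, mul_one]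
  let : CommGroup (center (G ⧸ N)) := { (inferInstance : Group (center (G ⧸ N))) with
    mul_comm := fun a b => Subtype.ext (mem_center_iff.1 b.2 a) }
  let φ : R → R →* center (G ⧸ N) := fun r =>
    { toFun := fun c => ⟨π ⁅(r : G), (c : G)⁆, hcen _ (commutator_mem_commutator r.2 c.2)⟩
      map_one' := by ext; simp
      map_mul' := by
        intro c c'
        ext
        simp only [Subgroup.coe_mul]
        have e : ⁅(r : G), (c : G) * c'⁆
            = ⁅(r : G), (c : G)⁆ * ((c : G) * ⁅(r : G), (c' : G)⁆ * (c : G)⁻¹) := by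
          simp only [commutatorElement_def]; group
        rw [e, map_mul, hc' _ (commutator_mem_commutator r.2 c'.2)] }
  let ψ : G → R →* center (G ⧸ N) := fun t => if ht : t ∈ R then φ ⟨t, ht⟩ else 1
  have hψ : ∀ t ∈ R, ∀ c : R, ((ψ t c : center (G ⧸ N)) : G ⧸ N) = π ⁅t, (c : G)⁆ := by
    intro t ht c
    simp only [ψ, dif_pos ht]
    rfl
  obtain ⟨P0, h1, h2⟩ := sup_range (ι := G) (B := R) (A := center (G ⧸ N)) T ψ
  let P : Subgroup G := (P0.map (center (G ⧸ N)).subtype).comap π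
  have hP : ∀ x : G, x ∈ P ↔ ∃ y ∈ P0, (y : G ⧸ N) = π x := fun x => Iff.rfl
  have hNP : N ≤ P := by
    intro x hx
    rw [hP]
    exact ⟨1, one_mem _, ((QuotientGroup.eq_one_iff x).2 hx).symm⟩
  -- the good elements
  let H : Subgroup G :=
    { carrier := {r | r ∈ R ∧ ∀ c ∈ R, ⁅r, c⁆ ∈ P}
      mul_mem' := by
        rintro r r' ⟨hr, h⟩ ⟨hr', h'⟩
        refine ⟨mul_mem hr hr', fun c hc => ?_⟩
        have e : ⁅r * r', c⁆ = r * ⁅r', c⁆ * r⁻¹ * ⁅r, c⁆ := by
          simp only [commutatorElement_def]; group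
        rw [e]
        refine mul_mem ?_ (h c hc)
        obtain ⟨y, hy, hy2⟩ := (hP _).1 (h' c hc)
        exact (hP _).2 ⟨y, hy, by rw [hy2, hc' _ (commutator_mem_commutator hr' hc)]⟩
      one_mem' := ⟨one_mem _, fun c _ => by simp⟩
      inv_mem' := by
        rintro r ⟨hr, h⟩
        refine ⟨inv_mem hr, fun c hc => ?_⟩
        have e : ⁅r⁻¹, c⁆ = r⁻¹ * ⁅r, c⁆⁻¹ * r⁻¹⁻¹ := by
          simp only [commutatorElement_def]; group
        rw [e]
        obtain ⟨y, hy, hy2⟩ := (hP _).1 (h c hc)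
        refine (hP _).2 ⟨y⁻¹, inv_mem hy, ?_⟩
        rw [hc' _ (inv_mem (commutator_mem_commutator hr hc)), map_inv, ← hy2]; simp }
  have hHn : H.Normal := by
    refine ⟨?_⟩
    rintro r ⟨hr, h⟩ g
    refine ⟨(inferInstance : R.Normal).conj_mem r hr g, fun c hc => ?_⟩
    have hc2 : g⁻¹ * c * g ∈ R := by
      have := (inferInstance : R.Normal).conj_mem c hc g⁻¹
      simpa using this
    have e : ⁅g * r * g⁻¹, c⁆ = g * ⁅r, g⁻¹ * c * g⁆ * g⁻¹ := by
      simp only [commutatorElement_def]; group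
    rw [e]
    obtain ⟨y, hy, hy2⟩ := (hP _).1 (h _ hc2)
    exact (hP _).2 ⟨y, hy, by rw [hy2, hc' _ (commutator_mem_commutator hr hc2)]⟩
  have hTH : normalClosure (T : Set G) ≤ H := by
    apply normalClosure_le_normal
    intro t ht
    refine ⟨hT t ht, fun c hc => ?_⟩
    exact (hP _).2 ⟨_, h1 t ht ⟨c, hc⟩, hψ t (hT t ht) ⟨c, hc⟩⟩
  have hsqH : closure {y | ∃ a ∈ R, y = a ^ 2} ≤ H := by
    rw [closure_le]
    rintro y ⟨r, hr, rfl⟩
    refine ⟨pow_mem hr 2, fun c hc => hNP ?_⟩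
    have e : ⁅r ^ 2, c⁆ = ⁅r, ⁅r, c⁆⁆ * ⁅r, c⁆ ^ 2 := by
      simp only [commutatorElement_def, pow_two]; group
    rw [e]
    refine mul_mem ?_ (sq_mem_Nsq (commutator_mem_commutator hr hc))
    rw [← commutatorElement_inv]
    exact inv_mem (comm_mem_Nsq (commutator_mem_commutator hr hc) r)
  have hAH : ⁅R, R⁆ ≤ H := by
    intro a ha
    refine ⟨commutator_le_left R R ha, fun c hc => hNP (comm_mem_Nsq ha c)⟩
  refine ⟨P, ?_, hNP, ?_⟩
  · intro r hr c hc
    have : r ∈ H := (sup_le (sup_le hTH hsqH) hAH) hr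
    exact this.2 c hc
  · intro x hx
    obtain ⟨y, hy, hyx⟩ := (hP _).1 hx
    obtain ⟨c, hcy⟩ := h2 y hy
    refine ⟨fun t => (c t : G), ?_⟩
    apply QuotientGroup.eq.1
    change π _ = π x
    rw [← hyx, hcy, map_list_prod, List.map_map, ← Finset.prod_map_toList]
    have e2 := map_list_prod (center (G ⧸ N)).subtype (T.toList.map (fun t => ψ t (c t)))
    rw [List.map_map] at e2
    change _ = (center (G ⧸ N)).subtype _
    rw [e2]
    congr 1
    apply List.map_congr_left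
    intro t ht
    exact (hψ t (hT t (by simpa using ht)) (c t)).symm

end Pool.Agent.B0f829
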