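import Pool.Agent.Work.MP_b0f829_al.H86.Nilp

set_option autoImplicit false

namespace Pool.Agent.B0f829

open Subgroup
open scoped commutatorElement

variable {G : Type*} [Group G]

/-- In a solvable group the powers of exponent `2 ^ d` have bounded palindromic length. -/
theorem PL.all_powers (hsol : Group.IsSolvable G) (S : Finset G)
    (hS : closure (S : Set G) = ⊤) :
    ∃ d M : ℕ, ∀ g : G, PL (S : Set G) M (g ^ (2 ^ d)) := by
  obtain ⟨d, hd⟩ := hsol.solvable
  obtain ⟨M, hM⟩ := powers S hS d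
  refine ⟨d, M, fun g => ?_⟩
  obtain ⟨p, hp, hpg⟩ := hM g
  have h0 : derivedSeries G (d + 3) ≤ ⊥ := by
    rw [← hd]; exact derivedSeries_antitone G (by omega)
  have h1 := h0 hpg
  rw [mem_bot, inv_mul_eq_one] at h1
  rwa [← h1]

/-- All powers of a fixed element have bounded palindromic length. -/
theorem PL.powers_of (S : Finset G) {d M L : ℕ}
    (hM : ∀ g : G, PL (S : Set G) M (g ^ (2 ^ d))) {t : G} (ht : PL (S : Set G) L t) (k : ℤ) :
    PL (S : Set G) (2 ^ d * L + M) (t ^ k) := by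
  have hpos : (0 : ℤ) < 2 ^ d := by positivity
  have e : t ^ k = t ^ (k % 2 ^ d).toNat * (t ^ (k / 2 ^ d)) ^ (2 ^ d) := by
    have h1 : ((k % 2 ^ d).toNat : ℤ) = k % 2 ^ d :=
      Int.toNat_of_nonneg (Int.emod_nonneg _ hpos.ne')
    rw [← zpow_natCast t, ← zpow_natCast (t ^ (k / 2 ^ d)), ← zpow_mul, ← zpow_add, h1]
    congr 1
    have := Int.emod_add_mul_ediv k (2 ^ d)
    push_cast
    linarith [mul_comm (k / 2 ^ d) ((2 : ℤ) ^ d)]
  have h2 : ∀ n : ℕ, PL (S : Set G) (n * L) (t ^ n) := by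
    intro n
    induction n with
    | zero => simpa using PL.one (S : Set G) 0
    | succ n ih =>
      rw [pow_succ]
      exact (ih.mul ht).mono (by rw [Nat.add_mul, one_mul])
  have h3 : (k % 2 ^ d).toNat ≤ 2 ^ d := by
    have h4 := Int.emod_lt_of_pos k hpos
    have : (k % 2 ^ d).toNat < 2 ^ d := by
      rw [Int.toNat_lt (Int.emod_nonneg _ hpos.ne')]
      push_cast
      exact h4
    exact this.le
  rw [e]
  exact ((h2 _).mono (Nat.mul_le_mul_right _ h3)).mul (hM _)

/-- A normal subgroup `N` which is the normal closure of a finite set `T` is generated by `T`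
modulo `[N, G]`. -/
theorem gen_top_comm (N : Subgroup G) [N.Normal] (T : Finset G)
    (hT : N = normalClosure (T : Set G)) {x : G} (hx : x ∈ N) :
    ∃ k : G → ℤ, ((T.toList.map (fun t => t ^ (k t))).prod)⁻¹ * x ∈ ⁅N, (⊤ : Subgroup G)⁆ := by
  classical
  set K := ⁅N, (⊤ : Subgroup G)⁆ with hK
  let π := QuotientGroup.mk' K
  have hTN : ∀ t ∈ T, t ∈ N := fun t ht => by rw [hT]; exact subset_normalClosure ht
  have hcen : ∀ a ∈ N, π a ∈ center (G ⧸ K) := by
    intro a ha
    rw [mem_center_iff]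
    intro g
    obtain ⟨g, rfl⟩ := QuotientGroup.mk'_surjective K g
    have : ⁅a, g⁆ ∈ K := commutator_mem_commutator ha (mem_top g)
    have h1 : π ⁅a, g⁆ = 1 := (QuotientGroup.eq_one_iff _).2 this
    rw [commutatorElement_def] at h1
    have e : a * g = a * g * a⁻¹ * g⁻¹ * (g * a) := by group
    have h2 : π (a * g) = π (g * a) := by rw [e, map_mul, h1, one_mul]
    change π g * π a = π a * π g
    rw [← map_mul, ← map_mul, h2]
  let : CommGroup (center (G ⧸ K)) := { (inferInstance : Group (center (G ⧸ K))) with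
    mul_comm := fun a b => Subtype.ext (mem_center_iff.1 b.2 a) }
  let ψ : G → Multiplicative ℤ →* center (G ⧸ K) := fun t =>
    if ht : t ∈ N then zpowersHom (center (G ⧸ K)) ⟨π t, hcen t ht⟩ else 1
  have hψ : ∀ t ∈ N, ∀ k : Multiplicative ℤ,
      ((ψ t k : center (G ⧸ K)) : G ⧸ K) = π (t ^ (Multiplicative.toAdd k)) := by
    intro t ht k
    simp only [ψ, dif_pos ht, zpowersHom_apply, map_zpow]
    rfl
  obtain ⟨P0, h1, h2⟩ := sup_range (ι := G) (B := Multiplicative ℤ) (A := center (G ⧸ K)) T ψ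
  let P : Subgroup G := (P0.map (center (G ⧸ K)).subtype).comap π
  have hP : ∀ x : G, x ∈ P ↔ ∃ y ∈ P0, (y : G ⧸ K) = π x := fun x => Iff.rfl
  have hPn : P.Normal := by
    refine ⟨fun x hx g => ?_⟩
    obtain ⟨y, hy, hyx⟩ := (hP _).1 hx
    refine (hP _).2 ⟨y, hy, ?_⟩
    have h3 := mem_center_iff.1 y.2 (π g)
    rw [map_mul, map_mul, ← hyx, h3, mul_assoc, ← map_mul, mul_inv_cancel, map_one, mul_one]
  have hNP : N ≤ P := by
    rw [hT]
    apply normalClosure_le_normal
    intro t ht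
    refine (hP _).2 ⟨_, h1 t ht (Multiplicative.ofAdd 1), ?_⟩
    rw [hψ t (hTN t ht)]
    simp
  obtain ⟨y, hy, hyx⟩ := (hP _).1 (hNP hx)
  obtain ⟨c, hcy⟩ := h2 y hy
  refine ⟨fun t => Multiplicative.toAdd (c t), ?_⟩
  apply QuotientGroup.eq.1
  change π _ = π x
  rw [← hyx, hcy, map_list_prod, List.map_map, ← Finset.prod_map_toList]
  have e2 := map_list_prod (center (G ⧸ K)).subtype (T.toList.map (fun t => ψ t (c t)))
  rw [List.map_map] at e2
  change _ = (center (G ⧸ K)).subtype _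
  rw [e2]
  congr 1
  apply List.map_congr_left
  intro t ht
  exact (hψ t (hTN t (by simpa using ht)) (c t)).symm

/-- The main lemma: a normal subgroup `N` of a solvable group, normally generated by a finite set,
has bounded palindromic length modulo the derived subgroup of every term of its lower central
series. -/
theorem ext_bounded (hsol : Group.IsSolvable G) (S : Finset G) (hS : closure (S : Set G) = ⊤)
    (N : Subgroup G) [N.Normal] (T : Finset G) (hT : N = normalClosure (T : Set G)) (c : ℕ) :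
    ∃ M : ℕ, ∀ x ∈ N, ∃ p, PL (S : Set G) M p ∧
      p⁻¹ * x ∈ ⁅N.lowerCentralSeries c, N.lowerCentralSeries c⁆ := by
  classical
  obtain ⟨L0, hL0⟩ := PL.exists_all S hS T
  induction c with
  | zero =>
    obtain ⟨d, M, hM⟩ := PL.all_powers hsol S hS
    refine ⟨T.card * (2 ^ d * L0 + M) + 3 * S.card, fun x hx => ?_⟩
    obtain ⟨k, hk⟩ := gen_top_comm N T hT hx
    obtain ⟨q, hq, hqx⟩ := PL.comm_top_rel S hS N hk
    have h1 : PL (S : Set G) (T.card * (2 ^ d * L0 + M))
        ((T.toList.map (fun t => t ^ (k t))).prod) := by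
      have := PL.list_prod (S := (S : Set G)) T.toList (fun t => t ^ (k t))
        (n := 2 ^ d * L0 + M)
        (fun t ht => PL.powers_of S hM (hL0 t (by simpa using ht)) _)
      rwa [Finset.length_toList] at this
    refine ⟨(T.toList.map (fun t => t ^ (k t))).prod * q, h1.mul hq, ?_⟩
    have e : ((T.toList.map (fun t => t ^ (k t))).prod * q)⁻¹ * x
        = q⁻¹ * (((T.toList.map (fun t => t ^ (k t))).prod)⁻¹ * x) := by group
    rw [e, Subgroup.lowerCentralSeries_zero]
    exact hqx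
  | succ c ih =>
    obtain ⟨M, hM⟩ := ih
    have hn1 : (N.lowerCentralSeries c).Normal := lcs_normal N c
    have hn2 : (N.lowerCentralSeries (c + 1)).Normal := lcs_normal N (c + 1)
    refine ⟨M + T.card * (3 * L0) + 3 * S.card, fun x hx => ?_⟩
    obtain ⟨p, hp, hpx⟩ := hM x hx
    have hpx' : p⁻¹ * x ∈ ⁅N.lowerCentralSeries c, N⁆ :=
      commutator_mono le_rfl (lowerCentralSeries_le_self N c) hpx
    obtain ⟨d, hd⟩ := comm_gen_left (N.lowerCentralSeries c) N T hT hpx'
    rw [← Subgroup.lowerCentralSeries_succ] at hd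
    obtain ⟨q, hq, hqx⟩ := PL.comm_top_rel S hS (N.lowerCentralSeries (c + 1)) hd
    have h1 : PL (S : Set G) (T.card * (3 * L0)) ((T.toList.map (fun t => ⁅d t, t⁆)).prod) := by
      have := PL.list_prod (S := (S : Set G)) T.toList (fun t => ⁅d t, t⁆) (n := 3 * L0)
        (fun t ht => PL.comm_right hS (hL0 t (by simpa using ht)) _)
      rwa [Finset.length_toList] at this
    refine ⟨p * (T.toList.map (fun t => ⁅d t, t⁆)).prod * q, (hp.mul h1).mul hq, ?_⟩
    have e : (p * (T.toList.map (fun t => ⁅d t, t⁆)).prod * q)⁻¹ * x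
        = q⁻¹ * (((T.toList.map (fun t => ⁅d t, t⁆)).prod)⁻¹ * (p⁻¹ * x)) := by group
    rw [e]
    exact hqx

/-- Iteration along a chain. -/
theorem ext_chain (hsol : Group.IsSolvable G) (S : Finset G) (hS : closure (S : Set G) = ⊤)
    (m : ℕ) (N : ℕ → Subgroup G)
    (hfg : ∀ i < m, ∃ T : Finset G, N i = normalClosure (T : Set G))
    (hab : ∀ i < m, ∃ c : ℕ,
      ⁅(N i).lowerCentralSeries c, (N i).lowerCentralSeries c⁆ ≤ N (i + 1)) :
    ∃ M : ℕ, ∀ x ∈ N 0, ∃ p, PL (S : Set G) M p ∧ p⁻¹ * x ∈ N m := by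
  induction m with
  | zero => exact ⟨0, fun x hx => ⟨1, PL.one _ _, by simpa using hx⟩⟩
  | succ m ih =>
    obtain ⟨M, hM⟩ := ih (fun i hi => hfg i (by omega)) (fun i hi => hab i (by omega))
    obtain ⟨T, hT⟩ := hfg m (by omega)
    obtain ⟨c, hc⟩ := hab m (by omega)
    have hn : (N m).Normal := by rw [hT]; infer_instance
    obtain ⟨M', hM'⟩ := ext_bounded hsol S hS (N m) T hT c
    refine ⟨M + M', fun x hx => ?_⟩
    obtain ⟨p, hp, hpx⟩ := hM x hx
    obtain ⟨q, hq, hqx⟩ := hM' _ hpx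
    refine ⟨p * q, hp.mul hq, hc ?_⟩
    have e : (p * q)⁻¹ * x = q⁻¹ * (p⁻¹ * x) := by group
    rw [e]
    exact hqx

end Pool.Agent.B0f829
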