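import Pool.Agent.Work.MP_b0f829_al.H86.Crit

set_option autoImplicit false

namespace Pool.Agent.B0f829

open Subgroup
open scoped commutatorElement

variable {G : Type*} [Group G]

/-- Elements of `[L, N]`, `N` the normal closure of a finite set `T`, modulo `[[L, N], G]`. -/
theorem comm_gen_left (L N : Subgroup G) [L.Normal] [N.Normal] (T : Finset G)
    (hT : N = normalClosure (T : Set G)) {x : G} (hx : x ∈ ⁅L, N⁆) :
    ∃ d : G → G, ((T.toList.map (fun t => ⁅d t, t⁆)).prod)⁻¹ * x ∈ ⁅⁅L, N⁆, (⊤ : Subgroup G)⁆ := by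
  classical
  set K := ⁅⁅L, N⁆, (⊤ : Subgroup G)⁆ with hK
  let π := QuotientGroup.mk' K
  have hTN : ∀ t ∈ T, t ∈ N := fun t ht => by rw [hT]; exact subset_normalClosure ht
  have hcen : ∀ a ∈ ⁅L, N⁆, π a ∈ center (G ⧸ K) := by
    intro a ha
    rw [mem_center_iff]
    intro g
    obtain ⟨g, rfl⟩ := QuotientGroup.mk'_surjective K g
    have : ⁅a, g⁆ ∈ K := commutator_mem_commutator ha (mem_top g)
    have h1 : π ⁅a, g⁆ = 1 := (QuotientGroup.eq_one_iff _).2 this
    rw [commutatorElement_def] at h1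
    have e : a * g = a * g * a⁻¹ * g⁻¹ * (g * a) := by group
    have h2 : π (a * g) = π (g * a) := by rw [e, map_mul, h1, one_mul]
    change π g * π a = π a * π g
    rw [← map_mul, ← map_mul, h2]
  have hc' : ∀ a ∈ ⁅L, N⁆, ∀ g : G, π (g * a * g⁻¹) = π a := by
    intro a ha g
    have := mem_center_iff.1 (hcen a ha) (π g)
    rw [map_mul, map_mul, this, mul_assoc, ← map_mul, mul_inv_cancel, map_one, mul_one]
  let : CommGroup (center (G ⧸ K)) := { (inferInstance : Group (center (G ⧸ K))) with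
    mul_comm := fun a b => Subtype.ext (mem_center_iff.1 b.2 a) }
  let φ : N → L →* center (G ⧸ K) := fun n =>
    { toFun := fun c => ⟨π ⁅(c : G), (n : G)⁆, hcen _ (commutator_mem_commutator c.2 n.2)⟩
      map_one' := by ext; simp
      map_mul' := by
        intro c c'
        ext
        simp only [Subgroup.coe_mul]
        have e : ⁅(c : G) * c', (n : G)⁆
            = (c : G) * ⁅(c' : G), (n : G)⁆ * (c : G)⁻¹ * ⁅(c : G), (n : G)⁆ := by
          simp only [commutatorElement_def]; group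
        rw [e, map_mul, hc' _ (commutator_mem_commutator c'.2 n.2)]
        exact (mem_center_iff.1 (hcen _ (commutator_mem_commutator c'.2 n.2)) _).symm }
  let ψ : G → L →* center (G ⧸ K) := fun t => if ht : t ∈ N then φ ⟨t, ht⟩ else 1
  have hψ : ∀ t ∈ N, ∀ c : L, ((ψ t c : center (G ⧸ K)) : G ⧸ K) = π ⁅(c : G), t⁆ := by
    intro t ht c
    simp only [ψ, dif_pos ht]
    rfl
  obtain ⟨P0, h1, h2⟩ := sup_range (ι := G) (B := L) (A := center (G ⧸ K)) T ψ
  let P : Subgroup G := (P0.map (center (G ⧸ K)).subtype).comap π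
  have hP : ∀ x : G, x ∈ P ↔ ∃ y ∈ P0, (y : G ⧸ K) = π x := fun x => Iff.rfl
  let H : Subgroup G :=
    { carrier := {r | r ∈ N ∧ ∀ c ∈ L, ⁅c, r⁆ ∈ P}
      mul_mem' := by
        rintro r r' ⟨hr, h⟩ ⟨hr', h'⟩
        refine ⟨mul_mem hr hr', fun c hc => ?_⟩
        have e : ⁅c, r * r'⁆ = ⁅c, r⁆ * (r * ⁅c, r'⁆ * r⁻¹) := by
          simp only [commutatorElement_def]; group
        rw [e]
        refine mul_mem (h c hc) ?_
        obtain ⟨y, hy, hy2⟩ := (hP _).1 (h' c hc)
        exact (hP _).2 ⟨y, hy, by rw [hy2, hc' _ (commutator_mem_commutator hc hr')]⟩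
      one_mem' := ⟨one_mem _, fun c _ => by simp⟩
      inv_mem' := by
        rintro r ⟨hr, h⟩
        refine ⟨inv_mem hr, fun c hc => ?_⟩
        have e : ⁅c, r⁻¹⁆ = r⁻¹ * ⁅c, r⁆⁻¹ * r⁻¹⁻¹ := by
          simp only [commutatorElement_def]; group
        rw [e]
        obtain ⟨y, hy, hy2⟩ := (hP _).1 (h c hc)
        refine (hP _).2 ⟨y⁻¹, inv_mem hy, ?_⟩
        rw [hc' _ (inv_mem (commutator_mem_commutator hc hr)), map_inv, ← hy2]; simp }
  have hHn : H.Normal := by
    refine ⟨?_⟩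
    rintro r ⟨hr, h⟩ g
    refine ⟨(inferInstance : N.Normal).conj_mem r hr g, fun c hc => ?_⟩
    have hc2 : g⁻¹ * c * g ∈ L := by
      have := (inferInstance : L.Normal).conj_mem c hc g⁻¹
      simpa using this
    have e : ⁅c, g * r * g⁻¹⁆ = g * ⁅g⁻¹ * c * g, r⁆ * g⁻¹ := by
      simp only [commutatorElement_def]; group
    rw [e]
    obtain ⟨y, hy, hy2⟩ := (hP _).1 (h _ hc2)
    exact (hP _).2 ⟨y, hy, by rw [hy2, hc' _ (commutator_mem_commutator hc2 hr)]⟩
  have hTH : N ≤ H := by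
    rw [hT]
    apply normalClosure_le_normal
    intro t ht
    refine ⟨hTN t ht, fun c hc => ?_⟩
    exact (hP _).2 ⟨_, h1 t ht ⟨c, hc⟩, hψ t (hTN t ht) ⟨c, hc⟩⟩
  have hLN : ⁅L, N⁆ ≤ P := by
    rw [commutator_le]
    intro c hc n hn
    exact (hTH hn).2 c hc
  obtain ⟨y, hy, hyx⟩ := (hP _).1 (hLN hx)
  obtain ⟨c, hcy⟩ := h2 y hy
  refine ⟨fun t => (c t : G), ?_⟩
  apply QuotientGroup.eq.1
  change π _ = π x
  rw [← hyx, hcy, map_list_prod, List.map_map, ← Finset.prod_map_toList]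
  have e2 := map_list_prod (center (G ⧸ K)).subtype (T.toList.map (fun t => ψ t (c t)))
  rw [List.map_map] at e2
  change _ = (center (G ⧸ K)).subtype _
  rw [e2]
  congr 1
  apply List.map_congr_left
  intro t ht
  exact (hψ t (hTN t (by simpa using ht)) (c t)).symm

/-- Elements of `[C, G]` modulo `[C, C]`. -/
theorem PL.comm_top_rel (S : Finset G) (hS : closure (S : Set G) = ⊤) (C : Subgroup G) [C.Normal]
    {x : G} (hx : x ∈ ⁅C, (⊤ : Subgroup G)⁆) :
    ∃ p, PL (S : Set G) (3 * S.card) p ∧ p⁻¹ * x ∈ ⁅C, C⁆ := by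
  classical
  set D : Subgroup G := ⁅C, C⁆ with hD
  let π := QuotientGroup.mk' D
  have hsurj : Function.Surjective π := QuotientGroup.mk'_surjective D
  have hS' : closure ((S.image π : Finset (G ⧸ D)) : Set (G ⧸ D)) = ⊤ := by
    rw [Finset.coe_image, ← MonoidHom.map_closure, hS, ← MonoidHom.range_eq_map,
      MonoidHom.range_eq_top.2 hsurj]
  have hCn : (C.map π).Normal := Subgroup.Normal.map inferInstance π hsurj
  have hab : ∀ a ∈ C.map π, ∀ b ∈ C.map π, a * b = b * a := by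
    rintro _ ⟨a, ha, rfl⟩ _ ⟨b, hb, rfl⟩
    have h1 : π ⁅a, b⁆ = 1 := (QuotientGroup.eq_one_iff _).2 (commutator_mem_commutator ha hb)
    rw [commutatorElement_def] at h1
    have e : a * b = a * b * a⁻¹ * b⁻¹ * (b * a) := by group
    rw [← map_mul, ← map_mul, e, map_mul, h1, one_mul]
  have hx' : π x ∈ ⁅C.map π, (⊤ : Subgroup (G ⧸ D))⁆ := by
    have h0 : (⁅C, (⊤ : Subgroup G)⁆).map π ≤ ⁅C.map π, (⊤ : Subgroup (G ⧸ D))⁆ := by
      rw [map_commutator]
      exact commutator_mono le_rfl le_top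
    exact h0 ⟨x, hx, rfl⟩
  have h1 := PL.comm_top (S.image π) hS' (C.map π) hab hx'
  rw [Finset.coe_image] at h1
  obtain ⟨p, hp, hpa⟩ := PL.lift π h1
  exact ⟨p, hp.mono (Nat.mul_le_mul_left 3 Finset.card_image_le), QuotientGroup.eq.1 hpa⟩

theorem PL.exists_all (S : Finset G) (hS : closure (S : Set G) = ⊤) (T : Finset G) :
    ∃ l : ℕ, ∀ t ∈ T, PL (S : Set G) l t := by
  classical
  have h1 : ∀ t : G, ∃ l : ℕ, PL (S : Set G) l t := by
    intro t
    obtain ⟨w, hw, rfl⟩ := exists_word hS t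
    refine ⟨w.length * 1, ?_⟩
    have := PL.list_prod (S := (S : Set G)) w id (n := 1) (fun x hx => by
      simpa using PL.pow_letter (S := (S : Set G)) (x := x) (hw x hx) 1)
    simpa using this
  choose l hl using h1
  refine ⟨T.sup l, fun t ht => (hl t).mono (Finset.le_sup ht)⟩

/-- The terms of the lower central series of a normal subgroup are normal. -/
theorem lcs_normal (N : Subgroup G) [N.Normal] (k : ℕ) : (N.lowerCentralSeries k).Normal := by
  induction k with
  | zero => exact (inferInstance : N.Normal)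
  | succ k ih =>
    rw [Subgroup.lowerCentralSeries_succ]
    have := ih
    infer_instance

/-- A nilpotent normal subgroup which is the normal closure of a finite set: palindromic width
passes from `G / [N, N]` to `G`. -/
theorem nilp_step (S : Finset G) (hS : closure (S : Set G) = ⊤) (N : Subgroup G) [N.Normal]
    (hnil : Group.IsNilpotent N) (T : Finset G) (hT : N = normalClosure (T : Set G)) :
    ∃ M : ℕ, ∀ x ∈ ⁅N, N⁆, PL (S : Set G) M x := by
  classical
  obtain ⟨L0, hL0⟩ := PL.exists_all S hS T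
  obtain ⟨c, hc⟩ := (isNilpotent_iff_lowerCentralSeries N).1 hnil
  have key : ∀ k : ℕ, ∃ M : ℕ, ∀ x ∈ ⁅N, N⁆, ∃ p, PL (S : Set G) M p ∧
      p⁻¹ * x ∈ N.lowerCentralSeries (k + 1) := by
    intro k
    induction k with
    | zero => exact ⟨0, fun x hx => ⟨1, PL.one _ _, by simpa using hx⟩⟩
    | succ k ih =>
      obtain ⟨M, hM⟩ := ih
      have hn1 : (N.lowerCentralSeries k).Normal := lcs_normal N k
      have hn2 : (N.lowerCentralSeries (k + 1)).Normal := lcs_normal N (k + 1)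
      refine ⟨M + T.card * (3 * L0) + 3 * S.card, fun x hx => ?_⟩
      obtain ⟨p, hp, hpx⟩ := hM x hx
      rw [Subgroup.lowerCentralSeries_succ] at hpx
      obtain ⟨d, hd⟩ := comm_gen_left (N.lowerCentralSeries k) N T hT hpx
      rw [← Subgroup.lowerCentralSeries_succ] at hd
      obtain ⟨q, hq, hqx⟩ := PL.comm_top_rel S hS (N.lowerCentralSeries (k + 1)) hd
      have h1 : PL (S : Set G) (T.card * (3 * L0)) ((T.toList.map (fun t => ⁅d t, t⁆)).prod) := by
        have := PL.list_prod (S := (S : Set G)) T.toList (fun t => ⁅d t, t⁆) (n := 3 * L0)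
          (fun t ht => PL.comm_right hS (hL0 t (by simpa using ht)) _)
        rwa [Finset.length_toList] at this
      refine ⟨p * (T.toList.map (fun t => ⁅d t, t⁆)).prod * q, (hp.mul h1).mul hq, ?_⟩
      have e : (p * (T.toList.map (fun t => ⁅d t, t⁆)).prod * q)⁻¹ * x
          = q⁻¹ * (((T.toList.map (fun t => ⁅d t, t⁆)).prod)⁻¹ * (p⁻¹ * x)) := by group
      rw [e, Subgroup.lowerCentralSeries_succ]
      exact commutator_mono le_rfl (lowerCentralSeries_le_self N (k + 1)) hqx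
  obtain ⟨M, hM⟩ := key c
  refine ⟨M, fun x hx => ?_⟩
  obtain ⟨p, hp, hpx⟩ := hM x hx
  have h1 : N.lowerCentralSeries (c + 1) ≤ ⊥ := by
    rw [← hc]; exact Subgroup.lowerCentralSeries_antitone N (Nat.le_succ c)
  have h2 := h1 hpx
  rw [mem_bot, inv_mul_eq_one] at h2
  rwa [← h2]

/-- Abelian extensions: if `B` is an abelian normal subgroup and the derived subgroups of `G / B`
of index at least two are finitely generated as normal subgroups, the palindromic width of `G` is
finite. -/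
theorem finite_of_abelian (hsol : Group.IsSolvable G) (B : Subgroup G) [B.Normal]
    (hB : ∀ a ∈ B, ∀ b ∈ B, a * b = b * a)
    (hmax : ∀ j : ℕ, 2 ≤ j → ∃ T : Finset G, (∀ t ∈ T, t ∈ derivedSeries G j) ∧
      ∀ x ∈ derivedSeries G j, ∃ y ∈ normalClosure (T : Set G), y⁻¹ * x ∈ B)
    (S : Finset G) (hS : closure (S : Set G) = ⊤) :
    ∃ N : ℕ, ∀ g : G, PL (S : Set G) N g := by
  classical
  apply finite_of_layerCond hsol S hS
  intro i hi
  obtain ⟨j, rfl⟩ : ∃ j, i = j + 1 := ⟨i - 1, by omega⟩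
  obtain ⟨T, hT1, hT2⟩ := hmax j (by omega)
  refine ⟨T.card, fun a ha => ?_⟩
  set R := derivedSeries G j with hR
  rw [derivedSeries_succ] at ha ⊢
  obtain ⟨P, h1, hNP, h3⟩ := comm_gen R T hT1
  have hgen : ∀ r ∈ normalClosure (T : Set G), ∀ c ∈ R, ⁅r, c⁆ ∈ P := fun r hr c hc =>
    h1 r (mem_sup_left (mem_sup_left hr)) c hc
  have hTR : normalClosure (T : Set G) ≤ R := normalClosure_le_normal hT1
  have hRR : ⁅R, R⁆ ≤ P := by
    rw [commutator_le]
    intro r hr c hc
    obtain ⟨y, hy, hyr⟩ := hT2 r hr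
    obtain ⟨z, hz, hzc⟩ := hT2 c hc
    set b := y⁻¹ * r with hb
    set b' := z⁻¹ * c with hb'
    have er : r = y * b := by rw [hb]; group
    have ec : c = z * b' := by rw [hb']; group
    have hbR : b ∈ R := mul_mem (inv_mem (hTR hy)) hr
    have hb'R : b' ∈ R := mul_mem (inv_mem (hTR hz)) hc
    have hbb : ⁅b, b'⁆ = 1 := commutatorElement_eq_one_iff_mul_comm.2 (hB b hyr b' hzc)
    have e1 : ⁅r, c⁆ = ⁅y, ⁅b, c⁆⁆ * ⁅b, c⁆ * ⁅y, c⁆ := by
      rw [er]; simp only [commutatorElement_def]; group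
    have e2 : ⁅b, c⁆ = ⁅z, b⁆⁻¹ * (⁅z, ⁅b, b'⁆⁆ * ⁅b, b'⁆) := by
      rw [ec]; simp only [commutatorElement_def]; group
    have hbc : ⁅b, c⁆ ∈ ⁅R, R⁆ := commutator_mem_commutator hbR hc
    have k1 : ⁅y, ⁅b, c⁆⁆ ∈ P := by
      rw [← commutatorElement_inv]
      exact inv_mem (hNP (comm_mem_Nsq hbc y))
    have k3 : ⁅b, c⁆ ∈ P := by
      rw [e2, hbb]
      simpa using inv_mem (hgen z hz b hbR)
    rw [e1]
    exact mul_mem (mul_mem k1 k3) (hgen y hy c hc)
  obtain ⟨d, hd⟩ := h3 a (hRR ha)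
  refine ⟨T.toList.map (fun t => (t, d t)), by simp, ?_⟩
  rw [List.map_map]
  exact hd

/-- Pulling back finite palindromic width modulo a subgroup of bounded palindromic length. -/
theorem PL.of_quotient (S : Finset G) (K : Subgroup G) [K.Normal] {M M' : ℕ}
    (h1 : ∀ x ∈ K, PL (S : Set G) M x)
    (h2 : ∀ g : G ⧸ K, PL ((QuotientGroup.mk' K) '' (S : Set G)) M' g) (g : G) :
    PL (S : Set G) (M' + M) g := by
  obtain ⟨p, hp, hpg⟩ := PL.lift (QuotientGroup.mk' K) (h2 (QuotientGroup.mk' K g))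
  have hk : p⁻¹ * g ∈ K := QuotientGroup.eq.1 hpg
  have := hp.mul (h1 _ hk)
  rwa [mul_inv_cancel_left] at this

/-- The theorem: nilpotent normal subgroup, normally finitely generated, with quotient whose
derived subgroups of index at least two are finitely generated as normal subgroups. -/
theorem finite_of_nilpotent (hsol : Group.IsSolvable G) (N : Subgroup G) [N.Normal]
    (hnil : Group.IsNilpotent N) (T : Finset G) (hT : N = normalClosure (T : Set G))
    (hmax : ∀ j : ℕ, 2 ≤ j → ∃ T : Finset G, (∀ t ∈ T, t ∈ derivedSeries G j) ∧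
      ∀ x ∈ derivedSeries G j, ∃ y ∈ normalClosure (T : Set G), y⁻¹ * x ∈ N)
    (S : Finset G) (hS : closure (S : Set G) = ⊤) :
    ∃ M : ℕ, ∀ g : G, PL (S : Set G) M g := by
  classical
  obtain ⟨M, hM⟩ := nilp_step S hS N hnil T hT
  set K : Subgroup G := ⁅N, N⁆ with hK
  let π := QuotientGroup.mk' K
  have hsurj : Function.Surjective π := QuotientGroup.mk'_surjective K
  have hS' : closure ((S.image π : Finset (G ⧸ K)) : Set (G ⧸ K)) = ⊤ := by
    rw [Finset.coe_image, ← MonoidHom.map_closure, hS, ← MonoidHom.range_eq_map,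
      MonoidHom.range_eq_top.2 hsurj]
  have hNn : (N.map π).Normal := Subgroup.Normal.map inferInstance π hsurj
  have hab : ∀ a ∈ N.map π, ∀ b ∈ N.map π, a * b = b * a := by
    rintro _ ⟨a, ha, rfl⟩ _ ⟨b, hb, rfl⟩
    have h1 : π ⁅a, b⁆ = 1 := (QuotientGroup.eq_one_iff _).2 (commutator_mem_commutator ha hb)
    rw [commutatorElement_def] at h1
    have e : a * b = a * b * a⁻¹ * b⁻¹ * (b * a) := by group
    rw [← map_mul, ← map_mul, e, map_mul, h1, one_mul]
  have := hsol
  have hsol1 : Group.IsSolvable (G ⧸ K) := Group.isSolvable_of_surjective hsurj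
  obtain ⟨M', hM'⟩ := finite_of_abelian hsol1 (N.map π) hab (by
    intro j hj
    obtain ⟨T', hT1, hT2⟩ := hmax j hj
    refine ⟨T'.image π, ?_, ?_⟩
    · intro t ht
      obtain ⟨u, hu, rfl⟩ := Finset.mem_image.1 ht
      rw [← map_derivedSeries_eq hsurj j]
      exact ⟨u, hT1 u hu, rfl⟩
    · intro x hx
      rw [← map_derivedSeries_eq hsurj j] at hx
      obtain ⟨x, hx, rfl⟩ := hx
      obtain ⟨y, hy, hyx⟩ := hT2 x hx
      refine ⟨π y, ?_, ⟨y⁻¹ * x, hyx, by rw [map_mul, map_inv]⟩⟩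
      have hn : (normalClosure ((T'.image π : Finset (G ⧸ K)) : Set (G ⧸ K))).Normal :=
        inferInstance
      have h1 : normalClosure (T' : Set G) ≤
          (normalClosure ((T'.image π : Finset (G ⧸ K)) : Set (G ⧸ K))).comap π := by
        apply normalClosure_le_normal
        intro t ht
        refine mem_comap.2 (subset_normalClosure ?_)
        rw [Finset.coe_image]
        exact ⟨t, ht, rfl⟩
      exact h1 hy) (S.image π) hS'
  refine ⟨M' + M, fun g => PL.of_quotient S K hM (fun g => ?_) g⟩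
  have := hM' g
  rwa [Finset.coe_image] at this

end Pool.Agent.B0f829
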