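import Mathlib

set_option autoImplicit false

namespace Pool.Agent.B0f829

open Subgroup
open scoped commutatorElement

variable {G : Type*} [Group G]

/-- A palindromic word over the letters of `S` and their inverses. -/
def IsPalWord (S : Set G) (w : List G) : Prop :=
  (∀ x ∈ w, x ∈ S ∨ x⁻¹ ∈ S) ∧ w.reverse = w

/-- `PL S N g`: `g` is a product of at most `N` palindromes. -/
def PL (S : Set G) (N : ℕ) (g : G) : Prop :=
  ∃ ps : List (List G), ps.length ≤ N ∧ (∀ w ∈ ps, IsPalWord S w) ∧ (ps.map List.prod).prod = g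

theorem PL.one (S : Set G) (N : ℕ) : PL S N (1 : G) :=
  ⟨[], by simp, by simp, by simp⟩

theorem PL.mono {S : Set G} {m n : ℕ} (h : m ≤ n) {g : G} (hg : PL S m g) : PL S n g := by
  obtain ⟨ps, h1, h2, h3⟩ := hg
  exact ⟨ps, h1.trans h, h2, h3⟩

theorem PL.mul {S : Set G} {m n : ℕ} {a b : G} (ha : PL S m a) (hb : PL S n b) :
    PL S (m + n) (a * b) := by
  obtain ⟨ps, h1, h2, h3⟩ := ha
  obtain ⟨qs, k1, k2, k3⟩ := hb
  refine ⟨ps ++ qs, by simp; omega, ?_, by simp [h3, k3]⟩
  intro w hw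
  rcases List.mem_append.1 hw with h | h
  · exact h2 w h
  · exact k2 w h

theorem IsPalWord.inv {S : Set G} {w : List G} (hw : IsPalWord S w) :
    IsPalWord S (w.map (·⁻¹)) := by
  refine ⟨?_, ?_⟩
  · intro x hx
    obtain ⟨y, hy, rfl⟩ := List.mem_map.1 hx
    rcases hw.1 y hy with h | h
    · right; simpa using h
    · left; exact h
  · rw [← List.map_reverse, hw.2]

theorem IsPalWord.prod_inv {S : Set G} {w : List G} (hw : IsPalWord S w) :
    (w.map (·⁻¹)).prod = w.prod⁻¹ := by
  rw [List.prod_inv_reverse, ← List.map_reverse, hw.2]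

theorem PL.inv {S : Set G} {n : ℕ} {a : G} (ha : PL S n a) : PL S n a⁻¹ := by
  obtain ⟨ps, h1, h2, h3⟩ := ha
  refine ⟨(ps.map (fun w => w.map (·⁻¹))).reverse, by simpa using h1, ?_, ?_⟩
  · intro w hw
    rw [List.mem_reverse] at hw
    obtain ⟨v, hv, rfl⟩ := List.mem_map.1 hw
    exact (h2 v hv).inv
  · rw [← h3, List.map_reverse, List.prod_inv_reverse, List.map_map, List.map_map]
    congr 2
    apply List.map_congr_left
    intro w hw
    exact (h2 w hw).prod_inv

theorem PL.of_pal {S : Set G} {w : List G} (hw : IsPalWord S w) : PL S 1 w.prod :=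
  ⟨[w], by simp, by simpa using hw, by simp⟩

theorem exists_word {S : Set G} (hS : closure S = ⊤) (u : G) :
    ∃ w : List G, (∀ x ∈ w, x ∈ S ∨ x⁻¹ ∈ S) ∧ w.prod = u := by
  have hu : u ∈ (closure S).toSubmonoid := by rw [hS]; trivial
  rw [closure_toSubmonoid] at hu
  obtain ⟨l, hl, h⟩ := Submonoid.exists_list_of_mem_closure hu
  refine ⟨l, fun x hx => ?_, h⟩
  rcases hl x hx with k | k
  · exact Or.inl k
  · exact Or.inr k

theorem PL.conj_pal {S : Set G} (hS : closure S = ⊤) {v : List G} (hv : IsPalWord S v) (u : G) :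
    PL S 2 (u⁻¹ * v.prod * u) := by
  obtain ⟨w, hw, rfl⟩ := exists_word hS u
  have hw' : ∀ x ∈ w.map (·⁻¹), x ∈ S ∨ x⁻¹ ∈ S := by
    intro x hx
    obtain ⟨y, hy, rfl⟩ := List.mem_map.1 hx
    rcases hw y hy with h | h
    · right; simpa using h
    · left; exact h
  have p1 : IsPalWord S ((w.map (·⁻¹)).reverse ++ v ++ w.map (·⁻¹)) := by
    refine ⟨?_, ?_⟩
    · intro x hx
      rw [List.mem_append, List.mem_append, List.mem_reverse] at hx
      rcases hx with (h | h) | h
      · exact hw' x h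
      · exact hv.1 x h
      · exact hw' x h
    · simp [List.reverse_append, hv.2, List.append_assoc]
  have p2 : IsPalWord S (w.reverse ++ w) := by
    refine ⟨?_, by simp⟩
    intro x hx
    rw [List.mem_append, List.mem_reverse] at hx
    rcases hx with h | h <;> exact hw x h
  have h := (PL.of_pal p1).mul (PL.of_pal p2)
  have e1 : (w.map (·⁻¹)).reverse.prod = w.prod⁻¹ := (List.prod_inv_reverse w).symm
  have e2 : (w.map (·⁻¹)).prod * w.reverse.prod = 1 := by
    have := List.prod_inv_reverse w.reverse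
    rw [← List.map_reverse, List.reverse_reverse] at this
    rw [← this, inv_mul_cancel]
  have e : ((w.map (·⁻¹)).reverse ++ v ++ w.map (·⁻¹)).prod * (w.reverse ++ w).prod
      = w.prod⁻¹ * v.prod * w.prod := by
    rw [List.prod_append, List.prod_append, List.prod_append, e1]
    calc _ = w.prod⁻¹ * v.prod * ((w.map (·⁻¹)).prod * w.reverse.prod) * w.prod := by group
      _ = _ := by rw [e2]; group
  rw [← e]
  exact h

theorem PL.conj {S : Set G} (hS : closure S = ⊤) {n : ℕ} {a : G} (ha : PL S n a) (u : G) :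
    PL S (2 * n) (u⁻¹ * a * u) := by
  obtain ⟨ps, h1, h2, h3⟩ := ha
  induction ps generalizing n a with
  | nil =>
    simp only [List.map_nil, List.prod_nil] at h3
    rw [← h3]
    simpa using PL.one S (2 * n)
  | cons v ps ih =>
    obtain ⟨n, rfl⟩ : ∃ m, n = m + 1 := ⟨n - 1, by simp at h1; omega⟩
    have hv := PL.conj_pal hS (h2 v (by simp)) u
    have hr := ih (n := n) (a := (ps.map List.prod).prod) (by simpa using h1)
      (fun w hw => h2 w (by simp [hw])) rfl
    have := hv.mul hr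
    rw [← h3]
    simp only [List.map_cons, List.prod_cons]
    have e : u⁻¹ * (v.prod * (ps.map List.prod).prod) * u
        = u⁻¹ * v.prod * u * (u⁻¹ * (ps.map List.prod).prod * u) := by group
    rw [e]
    exact PL.mono (by omega) this

theorem PL.conj' {S : Set G} (hS : closure S = ⊤) {n : ℕ} {a : G} (ha : PL S n a) (u : G) :
    PL S (2 * n) (u * a * u⁻¹) := by
  simpa using PL.conj hS ha u⁻¹

theorem PL.comm_left {S : Set G} (hS : closure S = ⊤) {n : ℕ} {a : G} (ha : PL S n a) (b : G) :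
    PL S (3 * n) ⁅a, b⁆ := by
  have h := ha.mul (PL.conj' hS ha.inv b)
  have e : a * (b * a⁻¹ * b⁻¹) = ⁅a, b⁆ := by rw [commutatorElement_def]; group
  rw [e] at h
  exact h.mono (by omega)

theorem PL.comm_right {S : Set G} (hS : closure S = ⊤) {n : ℕ} {b : G} (hb : PL S n b) (a : G) :
    PL S (3 * n) ⁅a, b⁆ := by
  have h := (PL.conj' hS hb a).mul hb.inv
  have e : a * b * a⁻¹ * b⁻¹ = ⁅a, b⁆ := by rw [commutatorElement_def]
  rw [e] at h
  exact h.mono (by omega)

theorem PL.pow_letter {S : Set G} {x : G} (hx : x ∈ S ∨ x⁻¹ ∈ S) (k : ℕ) : PL S 1 (x ^ k) := by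
  have : IsPalWord S (List.replicate k x) := by
    refine ⟨?_, by simp⟩
    intro y hy
    rw [List.eq_of_mem_replicate hy]
    exact hx
  simpa using PL.of_pal this

theorem PL.zpow_letter {S : Set G} {x : G} (hx : x ∈ S) (k : ℤ) : PL S 1 (x ^ k) := by
  obtain ⟨n, rfl | rfl⟩ := k.eq_nat_or_neg
  · simpa using PL.pow_letter (Or.inl hx) n
  · have := PL.pow_letter (S := S) (x := x⁻¹) (Or.inr (by simpa using hx)) n
    simpa using this

theorem PL.list_prod {S : Set G} {ι : Type*} (l : List ι) (f : ι → G) {n : ℕ}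
    (h : ∀ i ∈ l, PL S n (f i)) : PL S (l.length * n) ((l.map f).prod) := by
  induction l with
  | nil => simpa using PL.one S 0
  | cons i l ih =>
    have h1 := h i (by simp)
    have h2 := ih (fun j hj => h j (by simp [hj]))
    have := h1.mul h2
    simp only [List.map_cons, List.prod_cons, List.length_cons]
    exact this.mono (by rw [Nat.add_mul]; omega)

/-- Lifting along a homomorphism whose image of `S` is `S'`. -/
theorem PL.lift {H : Type*} [Group H] (φ : G →* H) {S : Set G} {n : ℕ} {h : H}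
    (hh : PL (φ '' S) n h) : ∃ g : G, PL S n g ∧ φ g = h := by
  classical
  obtain ⟨ps, h1, h2, h3⟩ := hh
  have sec : ∀ y : H, ∃ x : G, (y ∈ φ '' S ∨ y⁻¹ ∈ φ '' S) → ((x ∈ S ∨ x⁻¹ ∈ S) ∧ φ x = y) := by
    intro y
    by_cases hy : y ∈ φ '' S
    · obtain ⟨x, hx, rfl⟩ := hy
      exact ⟨x, fun _ => ⟨Or.inl hx, rfl⟩⟩
    · by_cases hy' : y⁻¹ ∈ φ '' S
      · obtain ⟨x, hx, hxy⟩ := hy'
        exact ⟨x⁻¹, fun _ => ⟨Or.inr (by simpa using hx), by simp [hxy]⟩⟩
      · exact ⟨1, fun h => absurd h (by tauto)⟩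
  choose σ hσ using sec
  refine ⟨((ps.map (fun w => w.map σ)).map List.prod).prod,
    ⟨ps.map (fun w => w.map σ), by simpa using h1, ?_, rfl⟩, ?_⟩
  · intro w hw
    obtain ⟨v, hv, rfl⟩ := List.mem_map.1 hw
    refine ⟨?_, ?_⟩
    · intro x hx
      obtain ⟨y, hy, rfl⟩ := List.mem_map.1 hx
      exact (hσ y ((h2 v hv).1 y hy)).1
    · rw [← List.map_reverse, (h2 v hv).2]
  · rw [map_list_prod, List.map_map, List.map_map, ← h3]
    congr 1
    apply List.map_congr_left
    intro w hw
    simp only [Function.comp]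
    rw [map_list_prod, List.map_map]
    congr 1
    conv_rhs => rw [← List.map_id w]
    apply List.map_congr_left
    intro y hy
    exact (hσ y ((h2 w hw).1 y hy)).2

/-- Pushing forward. -/
theorem PL.map {H : Type*} [Group H] (φ : G →* H) {S : Set G} {n : ℕ} {g : G}
    (hg : PL S n g) : PL (φ '' S) n (φ g) := by
  obtain ⟨ps, h1, h2, h3⟩ := hg
  refine ⟨ps.map (fun w => w.map φ), by simpa using h1, ?_, ?_⟩
  · intro w hw
    obtain ⟨v, hv, rfl⟩ := List.mem_map.1 hw
    refine ⟨?_, ?_⟩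
    · intro x hx
      obtain ⟨y, hy, rfl⟩ := List.mem_map.1 hx
      rcases (h2 v hv).1 y hy with h | h
      · exact Or.inl ⟨y, h, rfl⟩
      · exact Or.inr ⟨y⁻¹, h, by simp⟩
    · rw [← List.map_reverse, (h2 v hv).2]
  · rw [← h3, map_list_prod, List.map_map, List.map_map]
    congr 1
    apply List.map_congr_left
    intro w _
    simp only [Function.comp]
    rw [map_list_prod]

theorem PL.subset {S S' : Set G} (h : S ⊆ S') {n : ℕ} {g : G} (hg : PL S n g) : PL S' n g := by
  obtain ⟨ps, h1, h2, h3⟩ := hg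
  refine ⟨ps, h1, fun w hw => ⟨fun x hx => ?_, (h2 w hw).2⟩, h3⟩
  rcases (h2 w hw).1 x hx with k | k
  · exact Or.inl (h k)
  · exact Or.inr (h k)

end Pool.Agent.B0f829
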