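import Pool.Agent.Work.MP_b0f829_al.H86.Pal

set_option autoImplicit false

namespace Pool.Agent.B0f829

open Subgroup
open scoped commutatorElement

/-- A finite product of images of homomorphisms into a commutative group. -/
theorem sup_range {ι B A : Type*} [Group B] [CommGroup A] (T : Finset ι) (φ : ι → B →* A) :
    ∃ P : Subgroup A, (∀ t ∈ T, ∀ b, φ t b ∈ P) ∧
      ∀ x ∈ P, ∃ c : ι → B, x = ∏ t ∈ T, φ t (c t) := by
  classical
  refine ⟨{ carrier := {x | ∃ c : ι → B, x = ∏ t ∈ T, φ t (c t)}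
            mul_mem' := ?_, one_mem' := ?_, inv_mem' := ?_ }, ?_, ?_⟩
  · rintro x y ⟨c, rfl⟩ ⟨d, rfl⟩
    exact ⟨fun t => c t * d t, by simp [Finset.prod_mul_distrib]⟩
  · exact ⟨fun _ => 1, by simp⟩
  · rintro x ⟨c, rfl⟩
    exact ⟨fun t => (c t)⁻¹, by simp⟩
  · intro t ht b
    refine ⟨fun s => if s = t then b else 1, ?_⟩
    rw [Finset.prod_eq_single t]
    · simp
    · intro s _ hst
      simp [hst]
    · intro h; exact absurd ht h
  · intro x hx
    exact hx

/-- The elements `(g • a) / a` of a commutative group are products over a generating set. -/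
theorem act_prod {G A : Type*} [Group G] [CommGroup A] (ρ : G → A →* A)
    (hmul : ∀ g h a, ρ (g * h) a = ρ g (ρ h a)) (hone : ∀ a, ρ 1 a = a)
    (S : Finset G) (hS : closure (S : Set G) = ⊤) :
    ∃ P : Subgroup A, (∀ g a, ρ g a / a ∈ P) ∧
      ∀ x ∈ P, ∃ c : G → A, x = ∏ s ∈ S, (ρ s (c s) / c s) := by
  obtain ⟨P, h1, h2⟩ := sup_range S (fun s => ρ s / MonoidHom.id A)
  refine ⟨P, ?_, ?_⟩
  · intro g
    have hg : g ∈ closure (S : Set G) := by rw [hS]; trivial
    induction hg using closure_induction with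
    | mem s hs =>
      intro a
      exact h1 s hs a
    | one => intro a; rw [hone]; simpa using P.one_mem
    | mul g h _ _ ihg ihh =>
      intro a
      rw [hmul]
      have := P.mul_mem (ihg (ρ h a)) (ihh a)
      simpa using this
    | inv g _ ih =>
      intro a
      have := P.inv_mem (ih (ρ g⁻¹ a))
      rw [← hmul, mul_inv_cancel, hone] at this
      simpa using this
  · intro x hx
    obtain ⟨c, hc⟩ := h2 x hx
    exact ⟨c, by simpa using hc⟩

variable {G : Type*} [Group G]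

/-- `L(i)`: elements of `[A, G]`, `A` abelian normal. -/
theorem comm_top_list (S : Finset G) (hS : closure (S : Set G) = ⊤) (A : Subgroup G) [A.Normal]
    (hA : ∀ a ∈ A, ∀ b ∈ A, a * b = b * a) {x : G} (hx : x ∈ ⁅A, (⊤ : Subgroup G)⁆) :
    ∃ c : G → G, (∀ s, c s ∈ A) ∧ (S.toList.map (fun s => ⁅s, c s⁆)).prod = x := by
  let : CommGroup A := { (inferInstance : Group A) with
    mul_comm := fun a b => Subtype.ext (hA a a.2 b b.2) }
  obtain ⟨P, h1, h2⟩ := act_prod (A := A)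
    (fun g => (MulAut.conjNormal (H := A) g).toMonoidHom)
    (fun g h a => by simp [map_mul, MulAut.mul_apply]) (fun a => by simp) S hS
  have h3 : ⁅A, (⊤ : Subgroup G)⁆ ≤ P.map A.subtype := by
    rw [commutator_comm, commutator_le]
    intro g _ a ha
    refine ⟨_, h1 g ⟨a, ha⟩, ?_⟩
    simp [commutatorElement_def, div_eq_mul_inv, MulAut.conjNormal_apply]
  obtain ⟨y, hy, hyx⟩ := h3 hx
  obtain ⟨c, hc⟩ := h2 y hy
  refine ⟨fun s => (c s : G), fun s => (c s).2, ?_⟩
  rw [← hyx, hc, ← Finset.prod_map_toList, map_list_prod, List.map_map]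
  congr 1
  apply List.map_congr_left
  intro s _
  simp [commutatorElement_def, div_eq_mul_inv, MulAut.conjNormal_apply]

/-- `PL` of a list product of commutators with letters. -/
theorem PL.comm_letters (S : Finset G) (hS : closure (S : Set G) = ⊤) (c : G → G) :
    PL (S : Set G) (3 * S.card) (S.toList.map (fun s => ⁅s, c s⁆)).prod := by
  have := PL.list_prod (S := (S : Set G)) S.toList (fun s => ⁅s, c s⁆) (n := 3) (fun s hs => by
    have h1 : PL (S : Set G) 1 s := by
      have := PL.pow_letter (S := (S : Set G)) (x := s) (Or.inl (by simpa using hs)) 1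
      simpa using this
    exact (PL.comm_left hS h1 (c s)))
  rw [Finset.length_toList] at this
  rwa [mul_comm]

/-- `L(i)` in terms of palindromes. -/
theorem PL.comm_top (S : Finset G) (hS : closure (S : Set G) = ⊤) (A : Subgroup G) [A.Normal]
    (hA : ∀ a ∈ A, ∀ b ∈ A, a * b = b * a) {x : G} (hx : x ∈ ⁅A, (⊤ : Subgroup G)⁆) :
    PL (S : Set G) (3 * S.card) x := by
  obtain ⟨c, _, hc⟩ := comm_top_list S hS A hA hx
  rw [← hc]
  exact PL.comm_letters S hS c

/-- `L(ii)`: squares of elements of a central `[R, R]`. -/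
theorem sq_list (S : Finset G) (hS : closure (S : Set G) = ⊤) (R : Subgroup G) [R.Normal]
    (hR : ∀ a ∈ ⁅R, R⁆, ∀ g : G, a * g = g * a) {a : G} (ha : a ∈ ⁅R, R⁆) :
    ∃ u v : G → G, ∃ z : G, (∀ g, z * g = g * z) ∧
      (S.toList.map (fun s => ⁅s, u s⁆)).prod = a * z ∧
      (S.toList.map (fun s => ⁅s, v s⁆)).prod = a⁻¹ * z := by
  classical
  have hcR : ∀ x ∈ R, ∀ y ∈ R, ∀ g : G, ⁅x, y⁆ * g = g * ⁅x, y⁆ := fun x hx y hy =>
    hR _ (commutator_mem_commutator hx hy)
  -- the group of pairs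
  let Γ : Subgroup (G × G) :=
    { carrier := {p | p.1 ∈ R ∧ p.2 ∈ R ∧ ∀ g : G, p.1 * p.2 * g = g * (p.1 * p.2)}
      mul_mem' := by
        rintro ⟨r, s⟩ ⟨r', s'⟩ ⟨h1, h2, h3⟩ ⟨k1, k2, k3⟩
        refine ⟨R.mul_mem h1 k1, R.mul_mem h2 k2, fun g => ?_⟩
        simp only [Prod.mk_mul_mk] at *
        -- r r' s s' = [r, r'] * (r' s') * (r s) ... 
        have hc := hcR r h1 r' k1
        have e : r * r' * (s * s') = ⁅r, r'⁆ * ((r' * s') * (s'⁻¹ * (r * s) * s')) := by
          rw [commutatorElement_def]; group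
        have e2 : s'⁻¹ * (r * s) * s' = r * s := by
          rw [mul_assoc, h3 s']; group
        rw [e, e2]
        calc ⁅r, r'⁆ * (r' * s' * (r * s)) * g
            = ⁅r, r'⁆ * ((r' * s') * ((r * s) * g)) := by group
          _ = ⁅r, r'⁆ * ((r' * s') * (g * (r * s))) := by rw [h3]
          _ = ⁅r, r'⁆ * (((r' * s') * g) * (r * s)) := by group
          _ = ⁅r, r'⁆ * ((g * (r' * s')) * (r * s)) := by rw [k3]
          _ = (⁅r, r'⁆ * g) * ((r' * s') * (r * s)) := by group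
          _ = (g * ⁅r, r'⁆) * ((r' * s') * (r * s)) := by rw [hc]
          _ = _ := by group
      one_mem' := ⟨R.one_mem, R.one_mem, fun g => by simp⟩
      inv_mem' := by
        rintro ⟨r, s⟩ ⟨h1, h2, h3⟩
        refine ⟨R.inv_mem h1, R.inv_mem h2, fun g => ?_⟩
        simp only [Prod.inv_mk] at *
        have e : s * r = r * s := by
          have := h3 s
          have h4 : r * s * s = s * r * s := by rw [this]; group
          exact (mul_right_cancel h4).symm
        have e1 : r⁻¹ * s⁻¹ = (r * s)⁻¹ := by rw [← e]; group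
        rw [e1]
        have := h3 g
        calc (r * s)⁻¹ * g = (r * s)⁻¹ * (g * (r * s)) * (r * s)⁻¹ := by group
          _ = (r * s)⁻¹ * (r * s * g) * (r * s)⁻¹ := by rw [this]
          _ = _ := by group }
  have hΓ : ∀ p : G × G, p ∈ Γ ↔ (p.1 ∈ R ∧ p.2 ∈ R ∧ ∀ g : G, p.1 * p.2 * g = g * (p.1 * p.2)) :=
    fun p => Iff.rfl
  let Δ : Subgroup Γ :=
    { carrier := {p | (p : G × G).1 = (p : G × G).2 ∧ ∀ g : G, (p : G × G).1 * g = g * (p : G × G).1}
      mul_mem' := by
        rintro ⟨⟨r, s⟩, h⟩ ⟨⟨r', s'⟩, h'⟩ ⟨h1, h2⟩ ⟨k1, k2⟩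
        simp only at h1 h2 k1 k2
        subst h1; subst k1
        refine ⟨rfl, fun g => ?_⟩
        simp only [Subgroup.coe_mul, Prod.mk_mul_mk]
        rw [mul_assoc, k2 g, ← mul_assoc, h2 g, mul_assoc]
      one_mem' := ⟨rfl, fun g => by simp⟩
      inv_mem' := by
        rintro ⟨⟨r, s⟩, h⟩ ⟨h1, h2⟩
        simp only at h1 h2
        subst h1
        refine ⟨rfl, fun g => ?_⟩
        simp only [Subgroup.coe_inv, Prod.inv_mk]
        calc r⁻¹ * g = r⁻¹ * (g * r) * r⁻¹ := by group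
          _ = r⁻¹ * (r * g) * r⁻¹ := by rw [h2]
          _ = g * r⁻¹ := by group }
  have hΔ : ∀ p : Γ, p ∈ Δ ↔ ((p : G × G).1 = (p : G × G).2 ∧
      ∀ g : G, (p : G × G).1 * g = g * (p : G × G).1) := fun p => Iff.rfl
  -- commutators of Γ lie in Δ
  have hcomm : ∀ p q : Γ, p * q * p⁻¹ * q⁻¹ ∈ Δ := by
    rintro ⟨⟨r, s⟩, h1, h2, h3⟩ ⟨⟨r', s'⟩, k1, k2, k3⟩
    simp only at h1 h2 h3 k1 k2 k3
    rw [hΔ]
    simp only [Subgroup.coe_mul, Subgroup.coe_inv, Prod.mk_mul_mk, Prod.inv_mk]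
    have hc := hcR r h1 r' k1
    rw [commutatorElement_def] at hc
    refine ⟨?_, hc⟩
    -- s = r⁻¹ z
    have es : s = r⁻¹ * (r * s) := by group
    have es' : s' = r'⁻¹ * (r' * s') := by group
    set z := r * s with hz
    set z' := r' * s' with hz'
    have zz : ∀ g, z * g = g * z := h3
    have zz' : ∀ g, z' * g = g * z' := k3
    have zi : ∀ g, z⁻¹ * g = g * z⁻¹ := fun g => by
      calc z⁻¹ * g = z⁻¹ * (g * z) * z⁻¹ := by group
        _ = z⁻¹ * (z * g) * z⁻¹ := by rw [zz]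
        _ = _ := by group
    have zi' : ∀ g, z'⁻¹ * g = g * z'⁻¹ := fun g => by
      calc z'⁻¹ * g = z'⁻¹ * (g * z') * z'⁻¹ := by group
        _ = z'⁻¹ * (z' * g) * z'⁻¹ := by rw [zz']
        _ = _ := by group
    have e1 : s * s' * s⁻¹ * s'⁻¹ = r⁻¹ * r'⁻¹ * r * r' := by
      rw [es, es']
      calc r⁻¹ * z * (r'⁻¹ * z') * (r⁻¹ * z)⁻¹ * (r'⁻¹ * z')⁻¹
          = r⁻¹ * (z * (r'⁻¹ * (z' * z⁻¹))) * r * z'⁻¹ * r' := by group
        _ = r⁻¹ * ((r'⁻¹ * (z' * z⁻¹)) * z) * r * z'⁻¹ * r' := by rw [zz]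
        _ = r⁻¹ * r'⁻¹ * (z' * r) * z'⁻¹ * r' := by group
        _ = r⁻¹ * r'⁻¹ * (r * z') * z'⁻¹ * r' := by rw [zz']
        _ = _ := by group
    rw [e1]
    -- [r, r'] = r⁻¹ r'⁻¹ r r' as [r,r'] is central
    have h4 : r * r' * r⁻¹ * r'⁻¹ * (r' * r) = r' * r * (r * r' * r⁻¹ * r'⁻¹) := hc (r' * r)
    have h5 : r * r' = r' * r * (r * r' * r⁻¹ * r'⁻¹) := by rw [← h4]; group
    calc r * r' * r⁻¹ * r'⁻¹ = r⁻¹ * r'⁻¹ * (r' * r * (r * r' * r⁻¹ * r'⁻¹)) := by group
      _ = r⁻¹ * r'⁻¹ * (r * r') := by rw [← h5]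
      _ = _ := by group
  have : Δ.Normal := by
    refine ⟨fun p hp q => ?_⟩
    have := Δ.mul_mem (hcomm q p) hp
    have e : q * p * q⁻¹ * p⁻¹ * p = q * p * q⁻¹ := by group
    rwa [e] at this
  let : CommGroup (Γ ⧸ Δ) := { (inferInstance : Group (Γ ⧸ Δ)) with
    mul_comm := by
      intro a b
      induction a using QuotientGroup.induction_on with
      | H p =>
      induction b using QuotientGroup.induction_on with
      | H q =>
      rw [← QuotientGroup.mk_mul, ← QuotientGroup.mk_mul, QuotientGroup.eq]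
      have := hcomm q⁻¹ p⁻¹
      have e : (p * q)⁻¹ * (q * p) = q⁻¹ * p⁻¹ * (q⁻¹)⁻¹ * (p⁻¹)⁻¹ := by group
      rw [e]
      exact this }
  -- the conjugation action
  have hconj : ∀ (g : G) (p : G × G), p ∈ Γ → (g * p.1 * g⁻¹, g * p.2 * g⁻¹) ∈ Γ := by
    rintro g ⟨r, s⟩ ⟨h1, h2, h3⟩
    simp only at h1 h2 h3
    refine ⟨(inferInstance : R.Normal).conj_mem _ h1 _, (inferInstance : R.Normal).conj_mem _ h2 _,
      fun x => ?_⟩
    have e : g * r * g⁻¹ * (g * s * g⁻¹) = r * s := by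
      calc g * r * g⁻¹ * (g * s * g⁻¹) = g * (r * s * g⁻¹) := by group
        _ = g * (g⁻¹ * (r * s)) := by rw [h3]
        _ = _ := by group
    simp only [e]
    exact h3 x
  let cj : G → Γ →* Γ := fun g =>
    { toFun := fun p => ⟨(g * (p : G × G).1 * g⁻¹, g * (p : G × G).2 * g⁻¹), hconj g p p.2⟩
      map_one' := by ext <;> simp
      map_mul' := by intro p q; ext <;> simp }
  have hcj : ∀ g, Δ ≤ Δ.comap (cj g) := by
    rintro g ⟨⟨r, s⟩, h⟩ ⟨h1, h2⟩
    simp only at h1 h2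
    subst h1
    refine ⟨rfl, fun x => ?_⟩
    simp only [cj, MonoidHom.coe_mk, OneHom.coe_mk]
    have e : g * r * g⁻¹ = r := by
      rw [← h2 g]; group
    rw [e]; exact h2 x
  let ρ : G → (Γ ⧸ Δ) →* (Γ ⧸ Δ) := fun g => QuotientGroup.map Δ Δ (cj g) (hcj g)
  obtain ⟨P, hP1, hP2⟩ := act_prod ρ
    (by
      intro g h a
      induction a using QuotientGroup.induction_on with
      | H p =>
      simp only [ρ, QuotientGroup.map_mk]
      congr 1
      ext <;> simp [cj, mul_assoc])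
    (by
      intro a
      induction a using QuotientGroup.induction_on with
      | H p =>
      simp only [ρ, QuotientGroup.map_mk]
      congr 1
      ext <;> simp [cj]) S hS
  -- pairs (a, a⁻¹)
  have hpair : ∀ {b : G}, b ∈ ⁅R, R⁆ → (b, b⁻¹) ∈ Γ := by
    intro b hb
    have hbR : b ∈ R := commutator_le_left R R hb
    exact ⟨hbR, R.inv_mem hbR, fun g => by simp⟩
  have hall : ∀ b (hb : b ∈ ⁅R, R⁆), QuotientGroup.mk (s := Δ) ⟨(b, b⁻¹), hpair hb⟩ ∈ P := by
    let Q : Subgroup G :=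
      { carrier := {b | ∃ hb : b ∈ ⁅R, R⁆, QuotientGroup.mk (s := Δ) ⟨(b, b⁻¹), hpair hb⟩ ∈ P}
        mul_mem' := by
          rintro b b' ⟨hb, h⟩ ⟨hb', h'⟩
          refine ⟨mul_mem hb hb', ?_⟩
          have := P.mul_mem h h'
          rw [← QuotientGroup.mk_mul] at this
          convert this using 2
          ext
          · simp
          · simp only [mul_inv_rev, Subgroup.coe_mul, Prod.mk_mul_mk]
            have := hR _ (inv_mem hb') b⁻¹
            exact this
        one_mem' := by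
          refine ⟨one_mem _, ?_⟩
          have := P.one_mem
          rw [← QuotientGroup.mk_one] at this
          convert this using 2
          ext <;> simp
        inv_mem' := by
          rintro b ⟨hb, h⟩
          refine ⟨inv_mem hb, ?_⟩
          have := P.inv_mem h
          rw [← QuotientGroup.mk_inv] at this
          convert this using 2
          rfl }
    have hQ : ⁅R, R⁆ ≤ Q := by
      rw [commutator_le]
      intro g hg b hb
      refine ⟨commutator_mem_commutator hg hb, ?_⟩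
      have hβ : (b, b⁻¹) ∈ Γ := ⟨hb, R.inv_mem hb, fun g => by simp⟩
      have := hP1 g (QuotientGroup.mk (s := Δ) ⟨(b, b⁻¹), hβ⟩)
      rw [div_eq_mul_inv] at this
      simp only [ρ, QuotientGroup.map_mk] at this
      rw [← QuotientGroup.mk_inv, ← QuotientGroup.mk_mul] at this
      convert this using 2
      ext
      · simp [cj, commutatorElement_def]
      · simp only [cj, MonoidHom.coe_mk, OneHom.coe_mk, Subgroup.coe_mul, Subgroup.coe_inv,
          Prod.mk_mul_mk, Prod.inv_mk, inv_inv]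
        -- [g,b]⁻¹ = g b⁻¹ g⁻¹ b
        have hc := hcR g hg b hb b
        rw [commutatorElement_def] at hc ⊢
        have e : g * b⁻¹ * g⁻¹ * b = b⁻¹ * (b * (g * b⁻¹ * g⁻¹)) * b := by group
        have e2 : b * (g * b⁻¹ * g⁻¹) = (g * b * g⁻¹ * b⁻¹)⁻¹ := by group
        rw [e, e2]
        have hc' : (g * b * g⁻¹ * b⁻¹)⁻¹ * b = b * (g * b * g⁻¹ * b⁻¹)⁻¹ := by
          calc (g * b * g⁻¹ * b⁻¹)⁻¹ * b
              = (g * b * g⁻¹ * b⁻¹)⁻¹ * (b * (g * b * g⁻¹ * b⁻¹)) * (g * b * g⁻¹ * b⁻¹)⁻¹ := by group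
            _ = (g * b * g⁻¹ * b⁻¹)⁻¹ * ((g * b * g⁻¹ * b⁻¹) * b) * (g * b * g⁻¹ * b⁻¹)⁻¹ := by
              rw [hc]
            _ = _ := by group
        rw [mul_assoc (b⁻¹) _ b, hc']; group
    intro b hb
    obtain ⟨_, h⟩ := hQ hb
    exact h
  obtain ⟨c, hc⟩ := hP2 _ (hall a ha)
  have hsurj : ∀ s, ∃ γ : Γ, QuotientGroup.mk (s := Δ) γ = c s := fun s =>
    QuotientGroup.mk_surjective (c s)
  choose γ hγ using hsurj
  -- the list product in Γ
  let w : Γ := (S.toList.map (fun s => cj s (γ s) * (γ s)⁻¹)).prod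
  have hw : QuotientGroup.mk (s := Δ) w = QuotientGroup.mk (s := Δ) ⟨(a, a⁻¹), hpair ha⟩ := by
    rw [hc, ← Finset.prod_map_toList]
    change QuotientGroup.mk' Δ w = _
    simp only [w]
    rw [map_list_prod, List.map_map]
    congr 1
    apply List.map_congr_left
    intro s _
    simp only [Function.comp, map_mul, map_inv, div_eq_mul_inv, QuotientGroup.coe_mk']
    rw [← hγ s]
    simp only [ρ, QuotientGroup.map_mk]
  have hw2 := QuotientGroup.eq.1 hw.symm
  rw [hΔ] at hw2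
  obtain ⟨hw3, hw4⟩ := hw2
  have w1 : (w : G × G).1 = (S.toList.map (fun s => ⁅s, ((γ s : Γ) : G × G).1⁆)).prod := by
    have : (w : G × G).1 = ((MonoidHom.fst G G).comp Γ.subtype) w := rfl
    rw [this]
    simp only [w]
    rw [map_list_prod, List.map_map]
    congr 1
  have w2 : (w : G × G).2 = (S.toList.map (fun s => ⁅s, ((γ s : Γ) : G × G).2⁆)).prod := by
    have : (w : G × G).2 = ((MonoidHom.snd G G).comp Γ.subtype) w := rfl
    rw [this]
    simp only [w]
    rw [map_list_prod, List.map_map]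
    congr 1
  simp only [Subgroup.coe_mul, Subgroup.coe_inv, Prod.fst_mul, Prod.snd_mul, Prod.fst_inv,
    Prod.snd_inv, inv_inv] at hw3 hw4
  refine ⟨fun s => ((γ s : Γ) : G × G).1, fun s => ((γ s : Γ) : G × G).2,
    a⁻¹ * (w : G × G).1, hw4, ?_, ?_⟩
  · rw [← w1]; group
  · rw [← w2, hw3]; group

/-- Squares of elements of a central `[R, R]` in terms of palindromes. -/
theorem PL.sq_central (S : Finset G) (hS : closure (S : Set G) = ⊤) (R : Subgroup G) [R.Normal]
    (hR : ∀ a ∈ ⁅R, R⁆, ∀ g : G, a * g = g * a) {a : G} (ha : a ∈ ⁅R, R⁆) :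
    PL (S : Set G) (6 * S.card) (a ^ 2) := by
  obtain ⟨u, v, z, hz, h1, h2⟩ := sq_list S hS R hR ha
  have p1 := PL.comm_letters S hS u
  have p2 := (PL.comm_letters S hS v).inv
  have := p1.mul p2
  rw [h1, h2] at this
  have e : a * z * (a⁻¹ * z)⁻¹ = a ^ 2 := by
    rw [mul_inv_rev, inv_inv, pow_two]
    group
  rw [e] at this
  exact this.mono (by omega)

end Pool.Agent.B0f829
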